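import Pool.Agent.W702.Pave.Step
import Pool.Agent.W253.Pave.A
import Pool.Agent.W253.Pave.B
import Pool.Agent.W253.Pave.C
import Pool.Agent.W646.Pave.Sos
import Pool.Agent.W646.Pave.Cub

/-!
The barrier argument and the paving theorem for projections with diagonal `1/2`.
-/

namespace Pool.Agent.W702.Pave

open H990SF Pool.Agent.W676.KS Matrix
open scoped ComplexOrder

section
variable {I : Type} [DecidableEq I]

lemma rl_op3 (i : I) (f : (I × Fin 3 → ℂ) → ℂ) : rl (op3 i f) = S2 i (rl f) := by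
  funext x
  simp only [S2, D_rl']
  show (pd (i, 0) (pd (i, 1) f) _ + pd (i, 0) (pd (i, 2) f) _ + pd (i, 1) (pd (i, 2) f) _).re = _
  rw [Complex.add_re, Complex.add_re]; rfl

lemma rl_tr (i : I) (ε : ℝ) (f : (I × Fin 3 → ℂ) → ℂ) :
    rl (fun z => f z + (ε : ℂ) * (pd (i, 0) f z + pd (i, 1) f z + pd (i, 2) f z)) =
      RT ε i (rl f) := by
  funext x
  simp only [RT, S1, D_rl']
  show (f _ + (ε : ℂ) * (pd (i, 0) f _ + pd (i, 1) f _ + pd (i, 2) f _)).re = _
  rw [Complex.add_re, Complex.re_ofReal_mul, Complex.add_re, Complex.add_re]; rfl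

/-- the barrier point -/
def zpt (lo hi : ℝ) (L : List I) : I × Fin 3 → ℝ := fun e => if e.1 ∈ L then lo else hi

lemma CS_zpt (lo hi : ℝ) (L : List I) : CS (zpt lo hi L) := fun _ _ _ => rfl

lemma zpt_cons {lo hi s : ℝ} (h : lo = hi + s) {i : I} {L : List I} (hi' : i ∉ L) :
    zpt lo hi (i :: L) = ln (zpt lo hi L) i s := by
  funext e
  by_cases he : e.1 = i
  · simp [zpt, ln, he, hi', h]
  · simp [zpt, ln, he]

variable [Fintype I]

theorem barrier (hsos : S_sos) (hcub : S_cub) (htr : S_tr) (hop : S_op) (hab : S_ab)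
    (hlow : S_low) {F : (I × Fin 3 → ℂ) → ℂ} (hF : VG [] F) (hS : SymR (rl F)) {lo hi t : ℝ}
    (ht : 0 < t) (hlo : lo = hi + -(501 / 1000 * t)) (hA : Above (rl F) (fun _ => hi))
    (hI : ∀ j, Inv t (rl F) (fun _ => hi) j) (L : List I) (hL : L.Nodup) :
    VG L (cP F L) ∧ SymR (rl (cP F L)) ∧ Above (rl (cP F L)) (zpt lo hi L) ∧
      ∀ j, j ∉ L → Inv t (rl (cP F L)) (zpt lo hi L) j := by
  induction L with
  | nil =>
    have : (zpt lo hi ([] : List I)) = fun _ => hi := by funext e; simp [zpt]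
    rw [this]
    exact ⟨hF, hS, hA, fun j _ => hI j⟩
  | cons i L ih =>
    have hiL : i ∉ L := (List.nodup_cons.1 hL).1
    obtain ⟨ihV, ihS, ihA, ihI⟩ := ih (List.nodup_cons.1 hL).2
    set z := zpt lo hi L with hz
    set H := cP F L with hH
    have hCS : CS z := CS_zpt lo hi L
    have hg := ihV.good
    have hV' : VG (i :: L) (op3 i H) := hop I H L i ihV hiL
    have hz' : zpt lo hi (i :: L) = ln z i (-(501 / 1000 * t)) := zpt_cons hlo hiL
    have h0 : 0 < rl H z := ihA z le_rfl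
    have ab : ∀ E : List (I × Fin 3), E.Nodup → (∀ e ∈ E, e.1 ∉ L) → 0 < rl (DL E H) z :=
      fun E h1 h2 => hab I H L z E ihV ihA h1 h2 z le_rfl
    have h1 : 0 < D (i, 0) (rl H) z := by
      have := ab [(i, 0)] (by simp) (by simpa using hiL)
      simpa [DL, D_rl'] using this
    have h2 : 0 < D (i, 0) (D (i, 1) (rl H)) z := by
      have := ab [(i, 0), (i, 1)] (by simp) (by simpa using hiL)
      simpa [DL, D_rl'] using this
    have h3 : 0 < S3 i (rl H) z := by
      have := ab [(i, 0), (i, 1), (i, 2)] (by simp) (by simpa using hiL)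
      simpa [DL, D_rl', S3] using this
    have hval : 0 < S2 i (rl H) (ln z i (-(501 / 1000 * t))) :=
      step_pos hg.aff hg.ray ihS hCS ht h0 h1 h2 h3 (ihI i hiL)
    show VG (i :: L) (op3 i H) ∧ SymR (rl (op3 i H)) ∧ Above (rl (op3 i H)) _ ∧ _
    refine ⟨hV', ?_, ?_, ?_⟩
    · rw [rl_op3]; exact ihS.S2 i
    · apply hlow I H L i z _ ihV hiL ihA
      · intro e he
        rw [hz']; simp [ln, he]
      · rw [rl_op3, hz']; exact hval
    · intro j hj
      have hji : i ≠ j := fun h => hj (by simp [h])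
      have hjL : j ∉ L := fun h => hj (List.mem_cons_of_mem _ h)
      have h4 : 0 < S3 i (D (j, 0) (rl H)) z := by
        have := ab [(i, 0), (i, 1), (i, 2), (j, 0)] (by simp [hji]) (by
          intro e he
          simp only [List.mem_cons, List.not_mem_nil, or_false] at he
          rcases he with rfl | rfl | rfl | rfl
          · exact hiL
          · exact hiL
          · exact hiL
          · exact hjL)
        simpa [DL, D_rl', S3] using this
      have hRE : ∀ ε, 0 < ε → Ray (RT ε i (RT ε i (rl H))) := by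
        intro ε _
        have g1 := htr I H i ε hg
        have g2 := htr I _ i ε g1
        have := g2.ray
        rwa [rl_tr, rl_tr] at this
      have := (step hsos hcub hji hg.aff hg.ray hRE ihS hCS ht h0 h1 h2 h3 h4.le (ihI i hiL)
        (ihI j hjL)).2
      show Inv t (rl (op3 i H)) _ j
      rw [rl_op3, hz']
      exact this

theorem selection (hop : S_op) (hsel : S_sel) {F : (I × Fin 3 → ℂ) → ℂ} (hF : VG [] F) {lo : ℝ}
    (L : List I) (hL : L.Nodup)
    (h : ∃ (σ : I → Fin 3) (y : I × Fin 3 → ℝ), (∀ j ∈ L, ∀ c, y (j, c) = lo) ∧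
      (∀ j, j ∉ L → y (j, σ j) = lo) ∧ Above (rl (cP F L)) y) :
    ∃ (σ : I → Fin 3) (y : I × Fin 3 → ℝ), (∀ j, y (j, σ j) = lo) ∧ Above (rl F) y := by
  induction L with
  | nil =>
    obtain ⟨σ, y, _, h2, h3⟩ := h
    exact ⟨σ, y, fun j => h2 j (by simp), h3⟩
  | cons i L ih =>
    have hiL : i ∉ L := (List.nodup_cons.1 hL).1
    have hL' := (List.nodup_cons.1 hL).2
    apply ih hL'
    obtain ⟨σ, y, h1, h2, h3⟩ := h
    have hV : VG L (cP F L) := by
      clear ih h1 h2 h3 hL hiL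
      induction L with
      | nil => exact hF
      | cons k L ih2 =>
        exact hop I _ L k (ih2 (List.nodup_cons.1 hL').2) (List.nodup_cons.1 hL').1
    obtain ⟨c, y', k1, k2, k3⟩ := hsel I (cP F L) L i y hV hiL h3
    refine ⟨Function.update σ i c, y', ?_, ?_, k3⟩
    · intro j hj c'
      have hji : j ≠ i := fun h => hiL (h ▸ hj)
      rw [k2 (j, c') hji]
      exact h1 j (List.mem_cons_of_mem _ hj) c'
    · intro j hj
      by_cases hji : j = i
      · subst hji
        rw [Function.update_self, k1]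
        exact h1 j (by simp) c
      · rw [Function.update_of_ne hji, k2 (j, σ j) hji]
        exact h2 j (by simp [hji, hj])

end

lemma proj_le {I : Type} [DecidableEq I] [Fintype I] {Q : Matrix I I ℂ} (hQ : Q.IsHermitian)
    (hQQ : Q * Q = Q) (ξ : I → ℂ) : (star ξ ⬝ᵥ (Q *ᵥ ξ)).re ≤ ∑ i, ‖ξ i‖ ^ 2 := by
  set R : Matrix I I ℂ := 1 - Q with hR
  have hRH : Rᴴ = R := by rw [hR, conjTranspose_sub, conjTranspose_one, hQ]
  have hRR : Rᴴ * R = R := by
    rw [hRH, hR, sub_mul, one_mul, mul_sub, mul_one, hQQ]; simp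
  have h1 : 0 ≤ (star ξ ⬝ᵥ (R *ᵥ ξ)).re := by
    have h := (Matrix.posSemidef_conjTranspose_mul_self R).dotProduct_mulVec_nonneg ξ
    rw [hRR] at h
    exact (Complex.le_def.1 h).1
  have h2 : star ξ ⬝ᵥ (R *ᵥ ξ) = star ξ ⬝ᵥ ξ - star ξ ⬝ᵥ (Q *ᵥ ξ) := by
    rw [hR, sub_mulVec, one_mulVec, dotProduct_sub]
  have h3 : (star ξ ⬝ᵥ ξ).re = ∑ i, ‖ξ i‖ ^ 2 := by
    simp only [dotProduct, Complex.re_sum, Pi.star_apply]
    apply Finset.sum_congr rfl
    intro i _
    rw [Complex.star_def, ← Complex.normSq_eq_conj_mul_self, Complex.ofReal_re,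
      Complex.normSq_eq_norm_sq]
  rw [h2, Complex.sub_re, h3] at h1
  linarith

/-- **Three-paving of projections with diagonal `1/2`.** -/
theorem pave : S_pave := by
  obtain ⟨_, htr, hop⟩ := Pool.Agent.W253.Pave.mainA
  obtain ⟨hab, hlow, hsel⟩ := Pool.Agent.W253.Pave.mainB
  obtain ⟨hvg, hpos, hini, hsym, hfin⟩ := Pool.Agent.W253.PaveC.main
  have hsos := Pool.Agent.W646.Pave.Sos.main
  have hcub := Pool.Agent.W646.Pave.Cub.main
  refine ⟨999999 / 1000000, by norm_num, ?_⟩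
  intro I _ _ Q hQ hQQ hd
  have hle : ∀ ξ : I → ℂ, (star ξ ⬝ᵥ (Q *ᵥ ξ)).re ≤ ∑ i, ‖ξ i‖ ^ 2 := proj_le hQ hQQ
  have hV := hvg I Q hQ hle
  have hS : SymR (rl (FQ Q)) := by
    intro π x
    have := hsym I Q π (fun e => ((x e : ℝ) : ℂ))
    show (FQ Q fun e => ((pm π x e : ℝ) : ℂ)).re = _
    exact congrArg Complex.re this
  set hi : ℝ := 1001 / 1000 with hhi
  set t : ℝ := 1001 / 501000 with ht
  have hA : Above (rl (FQ Q)) (fun _ => hi) := hpos I Q hi hQ hle (by rw [hhi]; norm_num)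
  have hI : ∀ j, Inv t (rl (FQ Q)) (fun _ => hi) j := by
    intro j
    obtain ⟨e1, e2⟩ := hini I Q hi j hQ hQQ (hd j) (by rw [hhi]; norm_num)
    have e3 : t * D (j, 0) (rl (FQ Q)) (fun _ => hi) = rl (FQ Q) (fun _ => hi) := by
      rw [e1, ht, hhi]; ring
    refine ⟨e3.le, ?_⟩
    rw [e2, sub_self, mul_zero]; positivity
  have hnd := Finset.nodup_toList (Finset.univ : Finset I)
  have hb := barrier hsos hcub htr hop hab hlow hV hS (lo := 999999 / 1000000) (hi := hi) (t := t)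
    (by rw [ht]; norm_num) (by rw [ht, hhi]; norm_num) hA hI _ hnd
  obtain ⟨σ, y, hy, hAy⟩ := selection hop hsel hV (lo := 999999 / 1000000) _ hnd
    ⟨fun _ => 0, fun _ => 999999 / 1000000, fun _ _ _ => rfl, fun _ _ => rfl, by
      have e : (fun _ => 999999 / 1000000 : I × Fin 3 → ℝ) =
          zpt (999999 / 1000000) hi (Finset.univ : Finset I).toList := by
        funext e; simp [zpt]
      rw [e]; exact hb.2.2.1⟩
  exact ⟨σ, fun c ξ hξ => hfin I Q y σ (999999 / 1000000) hQ hy hAy c ξ hξ⟩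

end Pool.Agent.W702.Pave
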