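import Mathlib

/-!
The algebraic estimate behind the step lemma.
-/

namespace Pool.Agent.W702.Pave

lemma cs_ge {a b c d v y : ℝ} (hv : 0 ≤ v) (hy : 0 ≤ y) (h1 : a ^ 2 + b ^ 2 = y ^ 2)
    (h2 : c ^ 2 + d ^ 2 = v ^ 2) : -(y * v) ≤ a * c + b * d := by
  have h : (a * c + b * d) ^ 2 ≤ (y * v) ^ 2 := by
    have : (y * v) ^ 2 = (a ^ 2 + b ^ 2) * (c ^ 2 + d ^ 2) := by rw [h1, h2]; ring
    rw [this]; nlinarith [sq_nonneg (a * d - b * c)]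
  exact (abs_le_of_sq_le_sq' h (mul_nonneg hy hv)).1

lemma cs_le {a b c d v y : ℝ} (hv : 0 ≤ v) (hy : 0 ≤ y) (h1 : a ^ 2 + b ^ 2 = y ^ 2)
    (h2 : c ^ 2 + d ^ 2 = v ^ 2) : a * c + b * d ≤ y * v := by
  have h : (a * c + b * d) ^ 2 ≤ (y * v) ^ 2 := by
    have : (y * v) ^ 2 = (a ^ 2 + b ^ 2) * (c ^ 2 + d ^ 2) := by rw [h1, h2]; ring
    rw [this]; nlinarith [sq_nonneg (a * d - b * c)]
  exact (abs_le_of_sq_le_sq' h (mul_nonneg hy hv)).2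

/-- the pair term -/
lemma pair_term {m n nk nl K vk vl pk qk pl ql : ℝ} (hnk : 0 ≤ nk) (hnl : 0 ≤ nl) (hK : 0 ≤ K)
    (hvk : 0 ≤ vk) (hvl : 0 ≤ vl) (h1 : pk ^ 2 + qk ^ 2 = vk ^ 2) (h2 : pl ^ 2 + ql ^ 2 = vl ^ 2)
    (hm : m ≤ n * (nk + nl) + K * (nk * nl)) (hn : 0 ≤ n) :
    m * (vk * vl - (pk * pl + qk * ql)) ≤ 2 * (n * (nk + nl) + K * (nk * nl)) * (vk * vl) := by
  have a1 := cs_ge hvl hvk h1 h2
  have a2 := cs_le hvl hvk h1 h2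
  have hB : 0 ≤ n * (nk + nl) + K * (nk * nl) := by positivity
  calc m * (vk * vl - (pk * pl + qk * ql)) ≤
      (n * (nk + nl) + K * (nk * nl)) * (vk * vl - (pk * pl + qk * ql)) :=
        mul_le_mul_of_nonneg_right hm (by linarith)
    _ ≤ (n * (nk + nl) + K * (nk * nl)) * (2 * (vk * vl)) :=
        mul_le_mul_of_nonneg_left (by linarith) hB
    _ = _ := by ring

/-- The algebraic estimate. `c = 1/20`. -/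
lemma alg {m1 m2 m3 v1 v2 v3 p1 p2 p3 q1 q2 q3 g h x y K1 K2 K3 : ℝ}
    (hm1 : m1 ≤ 1) (hm2 : m2 ≤ 1) (hm3 : m3 ≤ 1) (hv1 : 0 ≤ v1) (hv2 : 0 ≤ v2) (hv3 : 0 ≤ v3)
    (e1 : p1 ^ 2 + q1 ^ 2 = v1 ^ 2) (e2 : p2 ^ 2 + q2 ^ 2 = v2 ^ 2) (e3 : p3 ^ 2 + q3 ^ 2 = v3 ^ 2)
    (hx : v1 + v2 + v3 ≤ x) (hy : 0 ≤ y)
    (hyy : (g + (p1 + p2 + p3)) ^ 2 + (h + (q1 + q2 + q3)) ^ 2 = y ^ 2)
    (hK1 : 0 ≤ K1) (hK2 : 0 ≤ K2) (hK3 : 0 ≤ K3)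
    (hK : ∀ w1 w2 w3 : ℝ, 0 ≤ w1 → 0 ≤ w2 → 0 ≤ w3 →
      K1 * (w2 * w3) + K2 * (w1 * w3) + K3 * (w1 * w2) ≤ 2 * (w1 + w2 + w3) ^ 2)
    (h1 : m2 + m3 - 1 ≤ 1 / 20 * ((1 - m2) + (1 - m3)) + K1 * ((1 - m2) * (1 - m3)))
    (h2 : m1 + m3 - 1 ≤ 1 / 20 * ((1 - m1) + (1 - m3)) + K2 * ((1 - m1) * (1 - m3)))
    (h3 : m1 + m2 - 1 ≤ 1 / 20 * ((1 - m1) + (1 - m2)) + K3 * ((1 - m1) * (1 - m2))) :
    (m1 * v1 + m2 * v2 + m3 * v3) ^ 2 + (g + (m1 * p1 + m2 * p2 + m3 * p3)) ^ 2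
      + (h + (m1 * q1 + m2 * q2 + m3 * q3)) ^ 2 - (m1 * p1 + m2 * p2 + m3 * p3) ^ 2
      - (m1 * q1 + m2 * q2 + m3 * q3) ^ 2 ≤
    (y + ((1 - m1) * v1 + (1 - m2) * v2 + (1 - m3) * v3)) ^ 2
      + 1 / 5 * (x * ((1 - m1) * v1 + (1 - m2) * v2 + (1 - m3) * v3))
      + 8 * ((1 - m1) * v1 + (1 - m2) * v2 + (1 - m3) * v3) ^ 2 := by
  set r := (1 - m1) * v1 + (1 - m2) * v2 + (1 - m3) * v3 with hr
  set Y := g + (p1 + p2 + p3) with hY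
  set Z := h + (q1 + q2 + q3) with hZ
  have n1 : 0 ≤ 1 - m1 := by linarith
  have n2 : 0 ≤ 1 - m2 := by linarith
  have n3 : 0 ≤ 1 - m3 := by linarith
  have c1 := mul_le_mul_of_nonneg_left (cs_ge hv1 hy hyy e1) n1
  have c2 := mul_le_mul_of_nonneg_left (cs_ge hv2 hy hyy e2) n2
  have c3 := mul_le_mul_of_nonneg_left (cs_ge hv3 hy hyy e3) n3
  have t1 := pair_term n2 n3 hK1 hv2 hv3 e2 e3 h1 (by norm_num)
  have t2 := pair_term n1 n3 hK2 hv1 hv3 e1 e3 h2 (by norm_num)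
  have t3 := pair_term n1 n2 hK3 hv1 hv2 e1 e2 h3 (by norm_num)
  have k := hK ((1 - m1) * v1) ((1 - m2) * v2) ((1 - m3) * v3) (mul_nonneg n1 hv1)
    (mul_nonneg n2 hv2) (mul_nonneg n3 hv3)
  have hr0 : 0 ≤ r := by rw [hr]; positivity
  have key : (m1 * v1 + m2 * v2 + m3 * v3) ^ 2 + (g + (m1 * p1 + m2 * p2 + m3 * p3)) ^ 2
      + (h + (m1 * q1 + m2 * q2 + m3 * q3)) ^ 2 - (m1 * p1 + m2 * p2 + m3 * p3) ^ 2
      - (m1 * q1 + m2 * q2 + m3 * q3) ^ 2 =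
      y ^ 2 - 2 * ((1 - m1) * (Y * p1 + Z * q1) + (1 - m2) * (Y * p2 + Z * q2)
        + (1 - m3) * (Y * p3 + Z * q3)) + r ^ 2
      + 2 * ((m2 + m3 - 1) * (v2 * v3 - (p2 * p3 + q2 * q3))
        + (m1 + m3 - 1) * (v1 * v3 - (p1 * p3 + q1 * q3))
        + (m1 + m2 - 1) * (v1 * v2 - (p1 * p2 + q1 * q2))) := by
    rw [hr, hY, hZ]
    rw [hY, hZ] at hyy
    linear_combination hyy + (1 - 2 * m1) * e1 + (1 - 2 * m2) * e2 + (1 - 2 * m3) * e3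
  rw [key]
  -- the first-order pair terms
  have hl : ((1 - m2) + (1 - m3)) * (v2 * v3) + ((1 - m1) + (1 - m3)) * (v1 * v3)
      + ((1 - m1) + (1 - m2)) * (v1 * v2) ≤ r * x := by
    have a1 : ((1 - m2) + (1 - m3)) * (v2 * v3) + ((1 - m1) + (1 - m3)) * (v1 * v3)
      + ((1 - m1) + (1 - m2)) * (v1 * v2) ≤ r * (v1 + v2 + v3) := by
      have b1 := mul_nonneg n1 (mul_self_nonneg v1)
      have b2 := mul_nonneg n2 (mul_self_nonneg v2)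
      have b3 := mul_nonneg n3 (mul_self_nonneg v3)
      rw [hr]; linarith
    exact a1.trans (mul_le_mul_of_nonneg_left hx hr0)
  have hr' : r = (1 - m1) * v1 + (1 - m2) * v2 + (1 - m3) * v3 := hr
  rw [← hr'] at k
  have e4 : (y + r) ^ 2 = y ^ 2 + 2 * (y * r) + r ^ 2 := by ring
  have e5 : y * r = (1 - m1) * (y * v1) + (1 - m2) * (y * v2) + (1 - m3) * (y * v3) := by
    rw [hr']; ring
  rw [e4, e5]
  linarith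

end Pool.Agent.W702.Pave
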