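import Mathlib

/-!
Lemma U: a polynomial inequality for the roots of a cubic in the region of the invariant.
-/

namespace Pool.Agent.W702.Pave

lemma claim8 {x u : ℝ} (hx : 0 < x) (hxu : x ≤ u)
    (h : 8 * (x * u) + (1 + (x + u)) * ((x + u) / 20 - 1) < 0) :
    (137 / 20) * ((1 + x) * (1 + u)) ≤ 7 * (1 + u) + 4 * (1 + x) := by
  set s := x + u with hs
  have hs0 : 0 < s := by linarith
  have h1 : x * s ≤ 2 * (x * u) := by nlinarith
  by_cases hs1 : s ≤ 1
  · have h2 : 3 * x ≤ 3 / 2 * s := by linarith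
    nlinarith
  · push Not at hs1
    have h2 : 3 * x * s ≤ 3 / 4 * ((1 + s) * (1 - s / 20)) := by nlinarith
    have h3 : 3 / 4 * ((1 + s) * (1 - s / 20)) ≤
        s * (11 - 137 / 20 + (3 / 20) * s - (137 / 160) * ((1 + s) * (1 - s / 20))) := by
      nlinarith [sq_nonneg (s - 34 / 5), mul_nonneg (sub_nonneg.2 hs1.le) (sq_nonneg (s - 34 / 5))]
    have h4 : 3 * x ≤ 11 - 137 / 20 + (3 / 20) * s - (137 / 160) * ((1 + s) * (1 - s / 20)) := by
      have : s * (3 * x) ≤
        s * (11 - 137 / 20 + (3 / 20) * s - (137 / 160) * ((1 + s) * (1 - s / 20))) := by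
        linarith
      exact le_of_mul_le_mul_left this hs0
    nlinarith

lemma claim6a {x u : ℝ} (hx : 0 < x) (hxu : x ≤ u)
    (h : 6 * (x * u) + (1 + (x + u)) * ((x + u) / 20 - 1) < 0) :
    (133 / 20) * ((1 + x) * (1 + u)) ≤ 7 * (1 + u) + 4 * (1 + x) := by
  set s := x + u with hs
  have hs0 : 0 < s := by linarith
  have h1 : x * s ≤ 2 * (x * u) := by nlinarith
  by_cases hs1 : s ≤ 1
  · have h2 : 3 * x ≤ 3 / 2 * s := by linarith
    nlinarith
  · push Not at hs1
    have h2 : 3 * x * s ≤ ((1 + s) * (1 - s / 20)) := by nlinarith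
    have h3 : ((1 + s) * (1 - s / 20)) ≤
        s * (11 - 133 / 20 + (7 / 20) * s - (133 / 120) * ((1 + s) * (1 - s / 20))) := by
      nlinarith [sq_nonneg (s - 6), mul_nonneg (sub_nonneg.2 hs1.le) (sq_nonneg (s - 6))]
    have h4 : 3 * x ≤ 11 - 133 / 20 + (7 / 20) * s - (133 / 120) * ((1 + s) * (1 - s / 20)) := by
      have : s * (3 * x) ≤
        s * (11 - 133 / 20 + (7 / 20) * s - (133 / 120) * ((1 + s) * (1 - s / 20))) := by
        linarith
      exact le_of_mul_le_mul_left this hs0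
    nlinarith

lemma claim6b {x u : ℝ} (hx : 0 < x) (hxu : x ≤ u) (hu : u ≤ 3 / 2)
    (h : 6 * (x * u) + (1 + (x + u)) * ((x + u) / 20 - 1) < 0) :
    (69 / 10) * ((1 + x) * (1 + u)) ≤ 7 * (1 + u) + 4 * (1 + x) := by
  nlinarith [mul_pos hx (lt_of_lt_of_le hx hxu), sq_nonneg (x - u), sq_nonneg (x - 29/50), sq_nonneg (u - 29/50)]


/-- from the scaled inequality to the contradiction -/
lemma scaled {m0 a p b h : ℝ} (ha : 0 < a) (hp : 0 < p) (hb : 0 < b) (hh : 0 < h)
    (hm : m0 * (b * h) ≤ p * (7 * h + 4 * b))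
    (hR : 7 * (b * h) + 7 * (a * h) + 4 * (a * b) ≤ (1831 / 100) * (a * (b * h))) :
    7 * p + m0 * a ≤ (1831 / 100) * (a * p) := by
  have hbh : 0 < b * h := mul_pos hb hh
  have h1 : (7 * p + m0 * a) * (b * h) ≤ ((1831 / 100) * (a * p)) * (b * h) := by
    have h2 := mul_le_mul_of_nonneg_left hm ha.le
    have h3 := mul_le_mul_of_nonneg_left hR hp.le
    nlinarith
  exact le_of_mul_le_mul_right h1 hbh

/-- Pair inequality with constant 8. -/
lemma U8 {a b h : ℝ} (ha : 0 < a) (hap : a < 1503 / 1000) (hbh : b ≤ h)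
    (hβ : 0 < a + b - 1503 / 1000)
    (hR : 7 * (b * h) + 7 * (a * h) + 4 * (a * b) ≤ (1831 / 100) * (a * (b * h))) :
    (1503 / 1000 - a) * (a + b + h - 1503 / 1000) ≤
      (1 / 20) * ((a + b - 1503 / 1000) + (a + h - 1503 / 1000)) * (a + b + h - 1503 / 1000)
      + 8 * ((a + b - 1503 / 1000) * (a + h - 1503 / 1000)) := by
  by_contra hneg
  push Not at hneg
  set p : ℝ := 1503 / 1000 - a with hp
  have hp0 : 0 < p := by rw [hp]; linarith
  set β : ℝ := a + b - 1503 / 1000 with hβd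
  set η : ℝ := a + h - 1503 / 1000 with hηd
  have hb : b = p + β := by rw [hp, hβd]; ring
  have hh : h = p + η := by rw [hp, hηd]; ring
  have hτ : a + b + h - 1503 / 1000 = β + η + p := by rw [hp, hβd, hηd]; ring
  rw [hτ] at hneg
  have hβη : β ≤ η := by rw [hβd, hηd]; linarith
  have hc := claim8 (x := β / p) (u := η / p) (div_pos hβ hp0)
    (div_le_div_of_nonneg_right hβη hp0.le) (by
      have : 8 * (β / p * (η / p)) + (1 + (β / p + η / p)) * ((β / p + η / p) / 20 - 1) =
        (8 * (β * η) + (β + η + p) * ((β + η) / 20 - p)) / p ^ 2 := by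
        field_simp; ring
      rw [this]
      apply div_neg_of_neg_of_pos _ (by positivity)
      linarith)
  have hm : (137 / 20) * (b * h) ≤ p * (7 * h + 4 * b) := by
    have e1 : 1 + β / p = b / p := by rw [hb]; field_simp
    have e2 : 1 + η / p = h / p := by rw [hh]; field_simp
    rw [e1, e2] at hc
    have h3 := mul_le_mul_of_nonneg_right hc (by positivity : 0 ≤ p ^ 2)
    have e3 : 137 / 20 * (b / p * (h / p)) * p ^ 2 = (137 / 20) * (b * h) := by field_simp
    have e4 : (7 * (h / p) + 4 * (b / p)) * p ^ 2 = p * (7 * h + 4 * b) := by field_simp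
    rw [e3, e4] at h3
    exact h3
  have hs := scaled ha hp0 (by rw [hb]; linarith) (by rw [hh]; linarith) hm hR
  have ha' : a = 1503 / 1000 - p := by rw [hp]; ring
  rw [ha'] at hs
  nlinarith [sq_nonneg (p - 3 / 4)]

/-- Pair inequality with constant 6. -/
lemma U6 {a b h : ℝ} (ha : 0 < a) (hap : a < 1503 / 1000) (hbh : b ≤ h) (hh1 : h < 1503 / 1000)
    (hβ : 0 < a + b - 1503 / 1000)
    (hR : 7 * (b * h) + 7 * (a * h) + 4 * (a * b) ≤ (1831 / 100) * (a * (b * h))) :
    (1503 / 1000 - a) * (a + b + h - 1503 / 1000) ≤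
      (1 / 20) * ((a + b - 1503 / 1000) + (a + h - 1503 / 1000)) * (a + b + h - 1503 / 1000)
      + 6 * ((a + b - 1503 / 1000) * (a + h - 1503 / 1000)) := by
  by_contra hneg
  push Not at hneg
  set p : ℝ := 1503 / 1000 - a with hp
  have hp0 : 0 < p := by rw [hp]; linarith
  set β : ℝ := a + b - 1503 / 1000 with hβd
  set η : ℝ := a + h - 1503 / 1000 with hηd
  have hb : b = p + β := by rw [hp, hβd]; ring
  have hh : h = p + η := by rw [hp, hηd]; ring
  have hτ : a + b + h - 1503 / 1000 = β + η + p := by rw [hp, hβd, hηd]; ring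
  rw [hτ] at hneg
  have hβη : β ≤ η := by rw [hβd, hηd]; linarith
  have hneg' : 6 * (β / p * (η / p)) + (1 + (β / p + η / p)) * ((β / p + η / p) / 20 - 1) < 0 := by
      have : 6 * (β / p * (η / p)) + (1 + (β / p + η / p)) * ((β / p + η / p) / 20 - 1) =
        (6 * (β * η) + (β + η + p) * ((β + η) / 20 - p)) / p ^ 2 := by
        field_simp; ring
      rw [this]
      apply div_neg_of_neg_of_pos _ (by positivity)
      linarith
  have e1 : 1 + β / p = b / p := by rw [hb]; field_simp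
  have e2 : 1 + η / p = h / p := by rw [hh]; field_simp
  have ha' : a = 1503 / 1000 - p := by rw [hp]; ring
  have conv : ∀ m0 : ℝ, m0 * ((1 + β / p) * (1 + η / p)) ≤ 7 * (1 + η / p) + 4 * (1 + β / p) →
      m0 * (b * h) ≤ p * (7 * h + 4 * b) := by
    intro m0 hc
    rw [e1, e2] at hc
    have h3 := mul_le_mul_of_nonneg_right hc (by positivity : 0 ≤ p ^ 2)
    have e3 : m0 * (b / p * (h / p)) * p ^ 2 = m0 * (b * h) := by field_simp
    have e4 : (7 * (h / p) + 4 * (b / p)) * p ^ 2 = p * (7 * h + 4 * b) := by field_simp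
    rw [e3, e4] at h3
    exact h3
  have hβp : 0 < β / p := div_pos hβ hp0
  have hβηp : β / p ≤ η / p := div_le_div_of_nonneg_right hβη hp0.le
  by_cases hu : η / p ≤ 3 / 2
  · have hm := conv _ (claim6b hβp hβηp hu hneg')
    have hs := scaled ha hp0 (by rw [hb]; linarith) (by rw [hh]; linarith) hm hR
    rw [ha'] at hs
    nlinarith [sq_nonneg (p - 3 / 4)]
  · push Not at hu
    have hm := conv _ (claim6a hβp hβηp hneg')
    have hs := scaled ha hp0 (by rw [hb]; linarith) (by rw [hh]; linarith) hm hR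
    rw [ha'] at hs
    have hp1 : p < 6012 / 10000 := by
      rw [lt_div_iff₀ hp0] at hu
      have : h < 1503 / 1000 := hh1
      rw [hh] at this
      linarith
    nlinarith

end Pool.Agent.W702.Pave
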