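import Pool.Agent.W702.Pave.Defs
import Pool.Agent.W702.Pave.U
import Pool.Agent.W702.Pave.Alg

/-!
The core estimate for a cubic with three distinct roots.
-/

namespace Pool.Agent.W702.Pave

/-- statement of the pair inequality with constant `K` -/
def PI (K a b h : ℝ) : Prop :=
  (1503 / 1000 - a) * (a + b + h - 1503 / 1000) ≤
      (1 / 20) * ((a + b - 1503 / 1000) + (a + h - 1503 / 1000)) * (a + b + h - 1503 / 1000)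
      + K * ((a + b - 1503 / 1000) * (a + h - 1503 / 1000))

lemma PI.symm {K a b h : ℝ} (H : PI K a b h) : PI K a h b := by
  unfold PI at *
  have e : a + h + b - 1503 / 1000 = a + b + h - 1503 / 1000 := by ring
  rw [e]; linarith

lemma PI_big {K a b h : ℝ} (hK : 0 ≤ K) (ha : 1503 / 1000 ≤ a) (h1 : 0 < a + b - 1503 / 1000)
    (h2 : 0 < a + h - 1503 / 1000) (h0 : 0 < a + b + h - 1503 / 1000) : PI K a b h := by
  unfold PI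
  have : (1503 / 1000 - a) * (a + b + h - 1503 / 1000) ≤ 0 :=
    mul_nonpos_of_nonpos_of_nonneg (by linarith) h0.le
  have : 0 ≤ (1 / 20) * ((a + b - 1503 / 1000) + (a + h - 1503 / 1000)) *
    (a + b + h - 1503 / 1000) := by positivity
  have : 0 ≤ K * ((a + b - 1503 / 1000) * (a + h - 1503 / 1000)) := by positivity
  linarith

lemma PI8 {a b h : ℝ} (ha : 0 < a) (h1 : 0 < a + b - 1503 / 1000)
    (h2 : 0 < a + h - 1503 / 1000) (h0 : 0 < a + b + h - 1503 / 1000)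
    (hR1 : 7 * (b * h) + 7 * (a * h) + 4 * (a * b) ≤ (1831 / 100) * (a * (b * h)))
    (hR2 : 7 * (b * h) + 7 * (a * b) + 4 * (a * h) ≤ (1831 / 100) * (a * (b * h))) :
    PI 8 a b h := by
  by_cases hap : a < 1503 / 1000
  · rcases le_total b h with hbh | hbh
    · exact U8 ha hap hbh h1 hR1
    · exact PI.symm (U8 ha hap hbh h2 (by
        have e : h * b = b * h := mul_comm _ _
        rw [e]; exact hR2))
  · exact PI_big (by norm_num) (not_lt.1 hap) h1 h2 h0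

lemma PI6 {a b h : ℝ} (ha : 0 < a) (hap : a < 1503 / 1000) (hb : b < 1503 / 1000)
    (hh : h < 1503 / 1000) (h1 : 0 < a + b - 1503 / 1000)
    (h2 : 0 < a + h - 1503 / 1000)
    (hR1 : 7 * (b * h) + 7 * (a * h) + 4 * (a * b) ≤ (1831 / 100) * (a * (b * h)))
    (hR2 : 7 * (b * h) + 7 * (a * b) + 4 * (a * h) ≤ (1831 / 100) * (a * (b * h))) :
    PI 6 a b h := by
  rcases le_total b h with hbh | hbh
  · exact U6 ha hap hbh hh h1 hR1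
  · exact PI.symm (U6 ha hap hbh hb h2 (by
      have e : h * b = b * h := mul_comm _ _
      rw [e]; exact hR2))

/-- positivity of the `A`'s -/
lemma A_pos {a b h : ℝ} (ha : 0 < a) (hb : 0 < b) (hh : 0 < h)
    (hR : 7 * (b * h) + 7 * (a * h) + 4 * (a * b) ≤ (1831 / 100) * (a * (b * h))) :
    0 < a + b - 1503 / 1000 := by
  by_contra hneg
  push Not at hneg
  have h1 : (7 * (a + b)) * h ≤ (1831 / 100 * (a * b)) * h := by nlinarith [mul_pos ha hb]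
  have h2 : 7 * (a + b) ≤ 1831 / 100 * (a * b) := le_of_mul_le_mul_right h1 hh
  nlinarith [sq_nonneg (a - b), mul_pos ha hb]

/-- conversion of the pair inequality to the scaled form -/
lemma PI.conv {K a b h τ : ℝ} (H : PI K a b h) (hτ : τ = a + b + h - 1503 / 1000) (h0 : 0 < τ) :
    b / τ + h / τ - 1 ≤ 1 / 20 * ((1 - b / τ) + (1 - h / τ)) + K * ((1 - b / τ) * (1 - h / τ)) := by
  unfold PI at H
  rw [← hτ] at H
  have e1 : b / τ + h / τ - 1 = ((1503 / 1000 - a) * τ) / τ ^ 2 := by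
    field_simp; rw [hτ]; ring
  have e2 : 1 / 20 * ((1 - b / τ) + (1 - h / τ)) + K * ((1 - b / τ) * (1 - h / τ)) =
      ((1 / 20) * ((a + b - 1503 / 1000) + (a + h - 1503 / 1000)) * τ
      + K * ((a + b - 1503 / 1000) * (a + h - 1503 / 1000))) / τ ^ 2 := by
    have f1 : 1 - b / τ = (a + h - 1503 / 1000) / τ := by field_simp; rw [hτ]; ring
    have f2 : 1 - h / τ = (a + b - 1503 / 1000) / τ := by field_simp; rw [hτ]; ring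
    rw [f1, f2]; field_simp; ring
  rw [e1, e2]
  exact div_le_div_of_nonneg_right H (by positivity)

/-- Lagrange interpolation. -/
lemma interp {d1 d2 d3 f0 f1 f2 f3 β1 β2 β3 : ℝ} (h12 : d1 ≠ d2) (h13 : d1 ≠ d3) (h23 : d2 ≠ d3)
    (e1 : β1 = (f0 - f1 * d1 + f2 * d1 ^ 2 - f3 * d1 ^ 3) / ((d2 - d1) * (d3 - d1)))
    (e2 : β2 = (f0 - f1 * d2 + f2 * d2 ^ 2 - f3 * d2 ^ 3) / ((d1 - d2) * (d3 - d2)))
    (e3 : β3 = (f0 - f1 * d3 + f2 * d3 ^ 2 - f3 * d3 ^ 3) / ((d1 - d3) * (d2 - d3))) :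
    f2 = f3 * (d1 + d2 + d3) + (β1 + β2 + β3) ∧
    f0 = f3 * (d1 * d2 * d3) + (β1 * (d2 * d3) + β2 * (d1 * d3) + β3 * (d1 * d2)) := by
  have n1 : d2 - d1 ≠ 0 := sub_ne_zero.2 h12.symm
  have n2 : d3 - d1 ≠ 0 := sub_ne_zero.2 h13.symm
  have n3 : d1 - d2 ≠ 0 := sub_ne_zero.2 h12
  have n4 : d3 - d2 ≠ 0 := sub_ne_zero.2 h23.symm
  have n5 : d1 - d3 ≠ 0 := sub_ne_zero.2 h13
  have n6 : d2 - d3 ≠ 0 := sub_ne_zero.2 h23
  have k3 : d1 - d2 = -(d2 - d1) := by ring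
  have k5 : d1 - d3 = -(d3 - d1) := by ring
  have k6 : d2 - d3 = -(d3 - d2) := by ring
  constructor
  · rw [e1, e2, e3, k3, k5, k6]
    field_simp
    ring
  · rw [e1, e2, e3, k3, k5, k6]
    field_simp
    ring

lemma q088 (w1 w2 w3 : ℝ) : 0 * (w2 * w3) + 8 * (w1 * w3) + 8 * (w1 * w2) ≤
    2 * (w1 + w2 + w3) ^ 2 := by nlinarith [sq_nonneg (w1 - (w2 + w3))]

lemma q808 (w1 w2 w3 : ℝ) : 8 * (w2 * w3) + 0 * (w1 * w3) + 8 * (w1 * w2) ≤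
    2 * (w1 + w2 + w3) ^ 2 := by nlinarith [sq_nonneg (w2 - (w1 + w3))]

lemma q880 (w1 w2 w3 : ℝ) : 8 * (w2 * w3) + 8 * (w1 * w3) + 0 * (w1 * w2) ≤
    2 * (w1 + w2 + w3) ^ 2 := by nlinarith [sq_nonneg (w3 - (w1 + w2))]

lemma q666 (w1 w2 w3 : ℝ) : 6 * (w2 * w3) + 6 * (w1 * w3) + 6 * (w1 * w2) ≤
    2 * (w1 + w2 + w3) ^ 2 := by
  nlinarith [sq_nonneg (w1 - w2), sq_nonneg (w1 - w3), sq_nonneg (w2 - w3)]

lemma exK {d1 d2 d3 : ℝ} (p1 : 0 < d1) (p2 : 0 < d2) (p3 : 0 < d3)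
    (hR1 : 7 * (d1 * d2) + 7 * (d1 * d3) + 4 * (d2 * d3) ≤ (1831 / 100) * (d1 * d2 * d3))
    (hR2 : 7 * (d1 * d2) + 7 * (d2 * d3) + 4 * (d1 * d3) ≤ (1831 / 100) * (d1 * d2 * d3))
    (hR3 : 7 * (d1 * d3) + 7 * (d2 * d3) + 4 * (d1 * d2) ≤ (1831 / 100) * (d1 * d2 * d3))
    (A1 : 0 < d2 + d3 - 1503 / 1000) (A2 : 0 < d1 + d3 - 1503 / 1000)
    (A3 : 0 < d1 + d2 - 1503 / 1000) : ∃ K1 K2 K3 : ℝ, 0 ≤ K1 ∧ 0 ≤ K2 ∧ 0 ≤ K3 ∧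
      (∀ w1 w2 w3 : ℝ, 0 ≤ w1 → 0 ≤ w2 → 0 ≤ w3 →
        K1 * (w2 * w3) + K2 * (w1 * w3) + K3 * (w1 * w2) ≤ 2 * (w1 + w2 + w3) ^ 2) ∧
      PI K1 d1 d2 d3 ∧ PI K2 d2 d1 d3 ∧ PI K3 d3 d1 d2 := by
  have A1' : 0 < d3 + d2 - 1503 / 1000 := by linarith only [A1]
  have A2' : 0 < d3 + d1 - 1503 / 1000 := by linarith only [A2]
  have A3' : 0 < d2 + d1 - 1503 / 1000 := by linarith only [A3]
  have T1 : 0 < d1 + d2 + d3 - 1503 / 1000 := by linarith only [A1, p1]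
  have T2 : 0 < d2 + d1 + d3 - 1503 / 1000 := by linarith only [A1, p1]
  have T3 : 0 < d3 + d1 + d2 - 1503 / 1000 := by linarith only [A1, p1]
  have E1 : PI 8 d1 d2 d3 := PI8 p1 A3 A2 T1 (by linarith only [hR3]) (by linarith only [hR2])
  have E2 : PI 8 d2 d1 d3 := PI8 p2 A3' A1 T2 (by linarith only [hR3])
    (by linarith only [hR1])
  have E3 : PI 8 d3 d1 d2 := PI8 p3 A2' A1' T3 (by linarith only [hR2])
    (by linarith only [hR1])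
  by_cases c1 : 1503 / 1000 ≤ d1
  · exact ⟨0, 8, 8, le_rfl, by norm_num, by norm_num, fun w1 w2 w3 _ _ _ => q088 w1 w2 w3,
      PI_big le_rfl c1 A3 A2 T1, E2, E3⟩
  · by_cases c2 : 1503 / 1000 ≤ d2
    · exact ⟨8, 0, 8, by norm_num, le_rfl, by norm_num, fun w1 w2 w3 _ _ _ => q808 w1 w2 w3, E1,
        PI_big le_rfl c2 A3' A1 T2, E3⟩
    · by_cases c3 : 1503 / 1000 ≤ d3
      · exact ⟨8, 8, 0, by norm_num, by norm_num, le_rfl, fun w1 w2 w3 _ _ _ => q880 w1 w2 w3, E1,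
          E2, PI_big le_rfl c3 A2' A1' T3⟩
      · push Not at c1 c2 c3
        exact ⟨6, 6, 6, by norm_num, by norm_num, by norm_num,
          fun w1 w2 w3 _ _ _ => q666 w1 w2 w3,
          PI6 p1 c1 c2 c3 A3 A2 (by linarith only [hR3]) (by linarith only [hR2]),
          PI6 p2 c2 c1 c3 A3' A1 (by linarith only [hR3]) (by linarith only [hR1]),
          PI6 p3 c3 c1 c2 A2' A1' (by linarith only [hR2]) (by linarith only [hR1])⟩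

theorem core (hsos : S_sos) {d1 d2 d3 : ℝ} (p1 : 0 < d1) (p2 : 0 < d2) (p3 : 0 < d3)
    (h12 : d1 ≠ d2) (h13 : d1 ≠ d3) (h23 : d2 ≠ d3) {a0 a1 a2 a3 b0 b1 b2 b3 : ℝ}
    (hN : ∀ u : ℝ, 0 ≤ (a0 + a1 * u + a2 * u ^ 2 + a3 * u ^ 3) ^ 2 -
      ((u + d1) * (u + d2) * (u + d3)) * (b0 + b1 * u + b2 * u ^ 2 + b3 * u ^ 3))
    (hW1 : 0 ≤ ((d2 - d1) * (d3 - d1)) * (a0 - a1 * d1 + a2 * d1 ^ 2 - a3 * d1 ^ 3))
    (hW2 : 0 ≤ ((d1 - d2) * (d3 - d2)) * (a0 - a1 * d2 + a2 * d2 ^ 2 - a3 * d2 ^ 3))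
    (hW3 : 0 ≤ ((d1 - d3) * (d2 - d3)) * (a0 - a1 * d3 + a2 * d3 ^ 2 - a3 * d3 ^ 3))
    (ha3 : 0 ≤ a3)
    (hR1 : 7 * (d1 * d2) + 7 * (d1 * d3) + 4 * (d2 * d3) ≤ (1831 / 100) * (d1 * d2 * d3))
    (hR2 : 7 * (d1 * d2) + 7 * (d2 * d3) + 4 * (d1 * d3) ≤ (1831 / 100) * (d1 * d2 * d3))
    (hR3 : 7 * (d1 * d3) + 7 * (d2 * d3) + 4 * (d1 * d2) ≤ (1831 / 100) * (d1 * d2 * d3))
    {x y x' r Y' τ : ℝ} (hx : x = a0 / (d1 * d2 * d3)) (hy : 0 ≤ y)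
    (hyy : y ^ 2 = x ^ 2 - b0 / (d1 * d2 * d3)) (hτ : τ = d1 + d2 + d3 - 1503 / 1000)
    (hx' : x' = (a2 - 1503 / 1000 * a3) / τ) (hr : r = x - x')
    (hY' : Y' = x' ^ 2 - (b2 - 1503 / 1000 * b3) / τ) :
    0 < τ ∧ 0 ≤ r ∧ Y' ≤ (y + r) ^ 2 + 1 / 5 * (x * r) + 8 * r ^ 2 := by
  -- rearranged region constraints
  have A3 : 0 < d1 + d2 - 1503 / 1000 := A_pos p1 p2 p3 (by linarith only [hR3])
  have A2 : 0 < d1 + d3 - 1503 / 1000 := A_pos p1 p3 p2 (by linarith only [hR2])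
  have A1 : 0 < d2 + d3 - 1503 / 1000 := A_pos p2 p3 p1 (by linarith only [hR1])
  have hτ0 : 0 < τ := by rw [hτ]; linarith only [A1, p1]
  -- the constants
  obtain ⟨K1, K2, K3, hK1, hK2, hK3, hK, P1, P2, P3⟩ := exK p1 p2 p3 hR1 hR2 hR3 A1 A2 A3
  -- sum of two squares
  obtain ⟨s0, s1, s2, s3, t0, t1, t2, t3, hst, n6, n5⟩ := hsos (a0 ^ 2 - d1 * d2 * d3 * b0)
    (2 * a0 * a1 - (d1 * d2 * d3 * b1 + (d1 * d2 + d1 * d3 + d2 * d3) * b0))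
    (2 * a0 * a2 + a1 ^ 2 - (d1 * d2 * d3 * b2 + (d1 * d2 + d1 * d3 + d2 * d3) * b1
      + (d1 + d2 + d3) * b0))
    (2 * a0 * a3 + 2 * a1 * a2 - (d1 * d2 * d3 * b3 + (d1 * d2 + d1 * d3 + d2 * d3) * b2
      + (d1 + d2 + d3) * b1 + b0))
    (2 * a1 * a3 + a2 ^ 2 - ((d1 * d2 + d1 * d3 + d2 * d3) * b3 + (d1 + d2 + d3) * b2 + b1))
    (2 * a2 * a3 - ((d1 + d2 + d3) * b3 + b2))
    (a3 ^ 2 - b3) (by
      intro u
      have := hN u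
      refine this.trans (le_of_eq ?_)
      ring)
  have hst' : ∀ u : ℝ, (a0 + a1 * u + a2 * u ^ 2 + a3 * u ^ 3) ^ 2 -
      ((u + d1) * (u + d2) * (u + d3)) * (b0 + b1 * u + b2 * u ^ 2 + b3 * u ^ 3) =
      (s0 + s1 * u + s2 * u ^ 2 + s3 * u ^ 3) ^ 2 + (t0 + t1 * u + t2 * u ^ 2 + t3 * u ^ 3) ^ 2 := by
    intro u
    rw [← hst u]; ring
  -- interpolation
  have q1 : (d2 - d1) * (d3 - d1) ≠ 0 :=
    mul_ne_zero (sub_ne_zero.2 h12.symm) (sub_ne_zero.2 h13.symm)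
  have q2 : (d1 - d2) * (d3 - d2) ≠ 0 :=
    mul_ne_zero (sub_ne_zero.2 h12) (sub_ne_zero.2 h23.symm)
  have q3 : (d1 - d3) * (d2 - d3) ≠ 0 :=
    mul_ne_zero (sub_ne_zero.2 h13) (sub_ne_zero.2 h23)
  obtain ⟨β1, hβ1⟩ : ∃ β1, β1 = (a0 - a1 * d1 + a2 * d1 ^ 2 - a3 * d1 ^ 3) /
    ((d2 - d1) * (d3 - d1)) := ⟨_, rfl⟩
  obtain ⟨β2, hβ2⟩ : ∃ β2, β2 = (a0 - a1 * d2 + a2 * d2 ^ 2 - a3 * d2 ^ 3) /
    ((d1 - d2) * (d3 - d2)) := ⟨_, rfl⟩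
  obtain ⟨β3, hβ3⟩ : ∃ β3, β3 = (a0 - a1 * d3 + a2 * d3 ^ 2 - a3 * d3 ^ 3) /
    ((d1 - d3) * (d2 - d3)) := ⟨_, rfl⟩
  obtain ⟨σ1, hσ1⟩ : ∃ β1, β1 = (s0 - s1 * d1 + s2 * d1 ^ 2 - s3 * d1 ^ 3) /
    ((d2 - d1) * (d3 - d1)) := ⟨_, rfl⟩
  obtain ⟨σ2, hσ2⟩ : ∃ β2, β2 = (s0 - s1 * d2 + s2 * d2 ^ 2 - s3 * d2 ^ 3) /
    ((d1 - d2) * (d3 - d2)) := ⟨_, rfl⟩
  obtain ⟨σ3, hσ3⟩ : ∃ β3, β3 = (s0 - s1 * d3 + s2 * d3 ^ 2 - s3 * d3 ^ 3) /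
    ((d1 - d3) * (d2 - d3)) := ⟨_, rfl⟩
  obtain ⟨ζ1, hζ1⟩ : ∃ β1, β1 = (t0 - t1 * d1 + t2 * d1 ^ 2 - t3 * d1 ^ 3) /
    ((d2 - d1) * (d3 - d1)) := ⟨_, rfl⟩
  obtain ⟨ζ2, hζ2⟩ : ∃ β2, β2 = (t0 - t1 * d2 + t2 * d2 ^ 2 - t3 * d2 ^ 3) /
    ((d1 - d2) * (d3 - d2)) := ⟨_, rfl⟩
  obtain ⟨ζ3, hζ3⟩ : ∃ β3, β3 = (t0 - t1 * d3 + t2 * d3 ^ 2 - t3 * d3 ^ 3) /
    ((d1 - d3) * (d2 - d3)) := ⟨_, rfl⟩
  obtain ⟨ia2, ia0⟩ := interp h12 h13 h23 hβ1 hβ2 hβ3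
  obtain ⟨is2, is0⟩ := interp h12 h13 h23 hσ1 hσ2 hσ3
  obtain ⟨it2, it0⟩ := interp h12 h13 h23 hζ1 hζ2 hζ3
  have nn : ∀ N δ : ℝ, 0 ≤ δ * N → 0 ≤ N / δ := by
    intro N δ h
    by_cases h0 : δ = 0
    · rw [h0]; simp
    · have : N / δ = (δ * N) / δ ^ 2 := by field_simp
      rw [this]; positivity
  have hβ1p : 0 ≤ β1 := by rw [hβ1]; exact nn _ _ hW1
  have hβ2p : 0 ≤ β2 := by rw [hβ2]; exact nn _ _ hW2
  have hβ3p : 0 ≤ β3 := by rw [hβ3]; exact nn _ _ hW3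
  have norm : ∀ a s t δ : ℝ, s ^ 2 + t ^ 2 = a ^ 2 → (s / δ) ^ 2 + (t / δ) ^ 2 = (a / δ) ^ 2 := by
    intro a s t δ h
    rw [div_pow, div_pow, div_pow, ← h]; ring
  have hn1 : σ1 ^ 2 + ζ1 ^ 2 = β1 ^ 2 := by
    rw [hσ1, hζ1, hβ1]
    apply norm
    have := hst' (-d1)
    have e : -d1 + d1 = 0 := by ring
    rw [e] at this
    linear_combination -this
  have hn2 : σ2 ^ 2 + ζ2 ^ 2 = β2 ^ 2 := by
    rw [hσ2, hζ2, hβ2]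
    apply norm
    have := hst' (-d2)
    have e : -d2 + d2 = 0 := by ring
    rw [e] at this
    linear_combination -this
  have hn3 : σ3 ^ 2 + ζ3 ^ 2 = β3 ^ 2 := by
    rw [hσ3, hζ3, hβ3]
    apply norm
    have := hst' (-d3)
    have e : -d3 + d3 = 0 := by ring
    rw [e] at this
    linear_combination -this
  have h0 := hst' 0
  -- values at zero
  have hp0 : 0 < d1 * d2 * d3 := by positivity
  have xe : x = a3 + (β1 / d1 + β2 / d2 + β3 / d3) := by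
    rw [hx, div_eq_iff hp0.ne', ia0]
    field_simp
  have se : s0 / (d1 * d2 * d3) = s3 + (σ1 / d1 + σ2 / d2 + σ3 / d3) := by
    rw [div_eq_iff hp0.ne']
    rw [is0]
    field_simp
  have te : t0 / (d1 * d2 * d3) = t3 + (ζ1 / d1 + ζ2 / d2 + ζ3 / d3) := by
    rw [div_eq_iff hp0.ne']
    rw [it0]
    field_simp
  have hyy' : (s3 + (σ1 / d1 + σ2 / d2 + σ3 / d3)) ^ 2 + (t3 + (ζ1 / d1 + ζ2 / d2 + ζ3 / d3)) ^ 2
      = y ^ 2 := by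
    rw [← se, ← te, hyy, hx, div_pow, div_pow, div_pow, ← add_div]
    have : b0 / (d1 * d2 * d3) = (b0 * (d1 * d2 * d3)) / (d1 * d2 * d3) ^ 2 := by
      field_simp
    rw [this, ← sub_div]
    congr 1
    linear_combination -h0
  have main := alg (m1 := d1 / τ) (m2 := d2 / τ) (m3 := d3 / τ) (v1 := β1 / d1) (v2 := β2 / d2)
    (v3 := β3 / d3) (p1 := σ1 / d1) (p2 := σ2 / d2) (p3 := σ3 / d3) (q1 := ζ1 / d1)
    (q2 := ζ2 / d2) (q3 := ζ3 / d3) (g := s3) (h := t3) (x := x) (y := y) (K1 := K1) (K2 := K2)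
    (K3 := K3) (by rw [div_le_one hτ0, hτ]; linarith) (by rw [div_le_one hτ0, hτ]; linarith)
    (by rw [div_le_one hτ0, hτ]; linarith) (div_nonneg hβ1p p1.le) (div_nonneg hβ2p p2.le)
    (div_nonneg hβ3p p3.le) (norm _ _ _ _ hn1) (norm _ _ _ _ hn2) (norm _ _ _ _ hn3)
    (by rw [xe]; linarith) hy hyy' hK1 hK2 hK3 hK (P1.conv hτ hτ0)
    (P2.conv (by rw [hτ]; ring) hτ0) (P3.conv (by rw [hτ]; ring) hτ0)
  have x'e : x' = a3 + (β1 + β2 + β3) / τ := by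
    have e : a2 - 1503 / 1000 * a3 = a3 * τ + (β1 + β2 + β3) := by
      rw [hτ]; linear_combination ia2
    rw [hx', e, add_div, mul_div_assoc, div_self hτ0.ne', mul_one]
  have re : r = (1 - d1 / τ) * (β1 / d1) + (1 - d2 / τ) * (β2 / d2) + (1 - d3 / τ) * (β3 / d3) := by
    rw [hr, xe, x'e]
    field_simp
    ring
  have mv : ∀ a b c : ℝ, d1 / τ * (a / d1) + d2 / τ * (b / d2) + d3 / τ * (c / d3) =
      (a + b + c) / τ := by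
    intro a b c
    field_simp
  rw [mv, mv, mv, ← re] at main
  have hb3 : b3 = a3 ^ 2 - s3 ^ 2 - t3 ^ 2 := by linarith
  have hb2 : b2 = 2 * a3 * a2 - 2 * s3 * s2 - 2 * t3 * t2 - (d1 + d2 + d3) * b3 := by linarith
  have Ye : Y' = ((β1 + β2 + β3) / τ) ^ 2 + (s3 + (σ1 + σ2 + σ3) / τ) ^ 2
      + (t3 + (ζ1 + ζ2 + ζ3) / τ) ^ 2 - ((σ1 + σ2 + σ3) / τ) ^ 2 - ((ζ1 + ζ2 + ζ3) / τ) ^ 2 := by
    have e1 : b2 - 1503 / 1000 * b3 = (a3 ^ 2 - s3 ^ 2 - t3 ^ 2) * τ + 2 * a3 * (β1 + β2 + β3)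
        - 2 * s3 * (σ1 + σ2 + σ3) - 2 * t3 * (ζ1 + ζ2 + ζ3) := by
      rw [hb2, hb3, ia2, is2, it2, hτ]; ring
    rw [hY', x'e, e1]
    field_simp
    ring
  refine ⟨hτ0, ?_, ?_⟩
  · rw [re]
    have g1 : 0 ≤ 1 - d1 / τ := by
      have : d1 / τ ≤ 1 := by rw [div_le_one hτ0, hτ]; linarith
      linarith
    have g2 : 0 ≤ 1 - d2 / τ := by
      have : d2 / τ ≤ 1 := by rw [div_le_one hτ0, hτ]; linarith
      linarith
    have g3 : 0 ≤ 1 - d3 / τ := by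
      have : d3 / τ ≤ 1 := by rw [div_le_one hτ0, hτ]; linarith
      linarith
    positivity
  · rw [Ye]; exact main

end Pool.Agent.W702.Pave
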