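import Pool.Agent.W702.Pave.Core

/-!
The step estimate for cubics (multiple roots allowed, by a limit argument).
-/

namespace Pool.Agent.W702.Pave

open Filter Topology

/-- coefficients of `(1+ε∂)² f` -/
def c0 (ε f0 f1 f2 : ℝ) : ℝ := f0 + 2 * ε * f1 + 2 * ε ^ 2 * f2
/-- coefficients of `(1+ε∂)² f` -/
def c1 (ε f1 f2 f3 : ℝ) : ℝ := f1 + 4 * ε * f2 + 6 * ε ^ 2 * f3
/-- coefficients of `(1+ε∂)² f` -/
def c2 (ε f2 f3 : ℝ) : ℝ := f2 + 6 * ε * f3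

/-- the region constraint from its invariant form -/
lemma region {A B C D E F : ℝ} (hE : E = A + B + C) (hFD : F * D = A * B + A * C + B * C)
    (h1 : 0 < 1831 / 100 * F - 6 * E) (h2 : 4 * (E ^ 2 - 3 * (F * D)) < (1831 / 100 * F - 6 * E) ^ 2) :
    7 * A + 7 * B + 4 * C ≤ 1831 / 100 * F := by
  have h3 : (A + B - 2 * C) ^ 2 ≤ (1831 / 100 * F - 6 * E) ^ 2 := by
    have : (A + B - 2 * C) ^ 2 = 4 * (E ^ 2 - 3 * (F * D)) - 3 * (A - B) ^ 2 := by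
      rw [hFD, hE]; ring
    rw [this]; nlinarith [sq_nonneg (A - B)]
  have h4 := (abs_le_of_sq_le_sq' h3 h1.le).2
  rw [hE] at h4
  linarith

/-- The estimate at a positive `ε`. -/
lemma at_eps (hsos : S_sos) (hcub : S_cub) {p0 p1 p2 p3 a0 a1 a2 a3 b0 b1 b2 b3 : ℝ}
    (hp0 : 0 < p0) (hp1 : 0 < p1) (hp2 : 0 < p2) (hp3 : 0 < p3) (ha3 : 0 ≤ a3)
    (hRR : ∀ u : ℝ, 0 ≤ 2 * (p1 + 2 * p2 * u + 3 * p3 * u ^ 2) ^ 2 -
      3 * (p0 + p1 * u + p2 * u ^ 2 + p3 * u ^ 3) * (2 * p2 + 6 * p3 * u))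
    {ε : ℝ} (hε : 0 < ε)
    (hF1 : ∀ u : ℝ, 0 ≤ (c0 ε a0 a1 a2 + c1 ε a1 a2 a3 * u + c2 ε a2 a3 * u ^ 2 + a3 * u ^ 3) ^ 2
      - (c0 ε p0 p1 p2 + c1 ε p1 p2 p3 * u + c2 ε p2 p3 * u ^ 2 + p3 * u ^ 3) *
        (c0 ε b0 b1 b2 + c1 ε b1 b2 b3 * u + c2 ε b2 b3 * u ^ 2 + b3 * u ^ 3))
    (hF2 : ∀ u : ℝ, 0 ≤ (c1 ε p1 p2 p3 + 2 * c2 ε p2 p3 * u + 3 * p3 * u ^ 2) *
        (c0 ε a0 a1 a2 + c1 ε a1 a2 a3 * u + c2 ε a2 a3 * u ^ 2 + a3 * u ^ 3)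
      - (c0 ε p0 p1 p2 + c1 ε p1 p2 p3 * u + c2 ε p2 p3 * u ^ 2 + p3 * u ^ 3) *
        (c1 ε a1 a2 a3 + 2 * c2 ε a2 a3 * u + 3 * a3 * u ^ 2))
    (hE1 : 0 < 1831 / 100 * c0 ε p0 p1 p2 - 6 * c1 ε p1 p2 p3)
    (hE2 : 4 * (c1 ε p1 p2 p3 ^ 2 - 3 * (c0 ε p0 p1 p2 * c2 ε p2 p3)) <
      (1831 / 100 * c0 ε p0 p1 p2 - 6 * c1 ε p1 p2 p3) ^ 2)
    {x y x' r Y' τ : ℝ} (hx : x = c0 ε a0 a1 a2 / c0 ε p0 p1 p2) (hy : 0 ≤ y)
    (hyy : y ^ 2 = x ^ 2 - c0 ε b0 b1 b2 / c0 ε p0 p1 p2)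
    (hτ : τ = c2 ε p2 p3 - 1503 / 1000 * p3)
    (hx' : x' = (c2 ε a2 a3 - 1503 / 1000 * a3) / τ) (hr : r = x - x')
    (hY' : Y' = x' ^ 2 - (c2 ε b2 b3 - 1503 / 1000 * b3) / τ) :
    0 ≤ r ∧ Y' ≤ (y + r) ^ 2 + 1 / 5 * (x * r) + 8 * r ^ 2 := by
  obtain ⟨d1, d2, d3, h12, h13, h23, hd⟩ := hcub p0 p1 p2 p3 ε hp3 hε.ne' hRR
  have hpoly : ∀ u : ℝ, c0 ε p0 p1 p2 + c1 ε p1 p2 p3 * u + c2 ε p2 p3 * u ^ 2 + p3 * u ^ 3 =
      p3 * ((u + d1) * (u + d2) * (u + d3)) := by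
    intro u
    rw [← hd u]; unfold c0 c1 c2; ring
  generalize hP0 : c0 ε p0 p1 p2 = P0 at *
  generalize hP1 : c1 ε p1 p2 p3 = P1 at *
  generalize hP2 : c2 ε p2 p3 = P2 at *
  generalize c0 ε a0 a1 a2 = A0 at *
  generalize c1 ε a1 a2 a3 = A1 at *
  generalize c2 ε a2 a3 = A2 at *
  generalize c0 ε b0 b1 b2 = B0 at *
  generalize c1 ε b1 b2 b3 = B1 at *
  generalize c2 ε b2 b3 = B2 at *
  have qP0 : 0 < P0 := by rw [← hP0]; unfold c0; positivity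
  have qP1 : 0 < P1 := by rw [← hP1]; unfold c1; positivity
  have qP2 : 0 < P2 := by rw [← hP2]; unfold c2; positivity
  have i0 := hpoly 0
  have i1 := hpoly 1
  have im := hpoly (-1)
  have k0 : P0 = p3 * (d1 * d2 * d3) := by linear_combination i0
  have k2 : P2 = p3 * (d1 + d2 + d3) := by linear_combination (i1 + im) / 2 - i0
  have k1 : P1 = p3 * (d1 * d2 + d1 * d3 + d2 * d3) := by linear_combination (i1 - im) / 2
  have root : ∀ d : ℝ, (d = d1 ∨ d = d2 ∨ d = d3) → 0 < d := by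
    intro d hdd
    by_contra hneg
    push Not at hneg
    have h1 := hpoly (-d)
    have h2 : (-d + d1) * (-d + d2) * (-d + d3) = 0 := by
      rcases hdd with h | h | h <;> rw [h] <;> ring
    rw [h2] at h1
    have : 0 ≤ -d := by linarith
    have : 0 < P0 + P1 * -d + P2 * (-d) ^ 2 + p3 * (-d) ^ 3 := by positivity
    linarith
  have g1 := root d1 (by simp)
  have g2 := root d2 (by simp)
  have g3 := root d3 (by simp)
  -- region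
  have hF : P0 / p3 = d1 * d2 * d3 := by rw [k0]; field_simp
  have hE : P1 / p3 = d1 * d2 + d1 * d3 + d2 * d3 := by rw [k1]; field_simp
  have hD : P2 / p3 = d1 + d2 + d3 := by rw [k2]; field_simp
  have e1 : 0 < 1831 / 100 * (d1 * d2 * d3) - 6 * (d1 * d2 + d1 * d3 + d2 * d3) := by
    rw [k0, k1] at hE1
    have : 0 < p3 * (1831 / 100 * (d1 * d2 * d3) - 6 * (d1 * d2 + d1 * d3 + d2 * d3)) := by
      linarith
    exact (pos_iff_pos_of_mul_pos this).1 hp3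
  have e2 : 4 * ((d1 * d2 + d1 * d3 + d2 * d3) ^ 2 - 3 * ((d1 * d2 * d3) * (d1 + d2 + d3))) <
      (1831 / 100 * (d1 * d2 * d3) - 6 * (d1 * d2 + d1 * d3 + d2 * d3)) ^ 2 := by
    rw [k0, k1, k2] at hE2
    have h3 : p3 ^ 2 * (4 * ((d1 * d2 + d1 * d3 + d2 * d3) ^ 2
        - 3 * ((d1 * d2 * d3) * (d1 + d2 + d3)))) <
      p3 ^ 2 * (1831 / 100 * (d1 * d2 * d3) - 6 * (d1 * d2 + d1 * d3 + d2 * d3)) ^ 2 := by
      linarith
    exact lt_of_mul_lt_mul_left h3 (by positivity)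
  have R1 : 7 * (d1 * d2) + 7 * (d1 * d3) + 4 * (d2 * d3) ≤ (1831 / 100) * (d1 * d2 * d3) :=
    region (D := d1 + d2 + d3) (E := d1 * d2 + d1 * d3 + d2 * d3) (by ring) (by ring) e1 e2
  have R2 : 7 * (d1 * d2) + 7 * (d2 * d3) + 4 * (d1 * d3) ≤ (1831 / 100) * (d1 * d2 * d3) :=
    region (D := d1 + d2 + d3) (E := d1 * d2 + d1 * d3 + d2 * d3) (by ring) (by ring) e1 e2
  have R3 : 7 * (d1 * d3) + 7 * (d2 * d3) + 4 * (d1 * d2) ≤ (1831 / 100) * (d1 * d2 * d3) :=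
    region (D := d1 + d2 + d3) (E := d1 * d2 + d1 * d3 + d2 * d3) (by ring) (by ring) e1 e2
  -- the two inequalities
  have hN : ∀ u : ℝ, 0 ≤ (A0 / p3 + A1 / p3 * u + A2 / p3 * u ^ 2 + a3 / p3 * u ^ 3) ^ 2 -
      ((u + d1) * (u + d2) * (u + d3)) *
        (B0 / p3 + B1 / p3 * u + B2 / p3 * u ^ 2 + b3 / p3 * u ^ 3) := by
    intro u
    have h1 := hF1 u
    rw [hpoly u] at h1
    have h2 : (A0 / p3 + A1 / p3 * u + A2 / p3 * u ^ 2 + a3 / p3 * u ^ 3) ^ 2 -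
      ((u + d1) * (u + d2) * (u + d3)) *
        (B0 / p3 + B1 / p3 * u + B2 / p3 * u ^ 2 + b3 / p3 * u ^ 3) =
      ((A0 + A1 * u + A2 * u ^ 2 + a3 * u ^ 3) ^ 2 - p3 * ((u + d1) * (u + d2) * (u + d3)) *
        (B0 + B1 * u + B2 * u ^ 2 + b3 * u ^ 3)) / p3 ^ 2 := by
      field_simp
    rw [h2]; positivity
  have hW : ∀ d e f : ℝ, (∀ u : ℝ, (u + d) * (u + e) * (u + f) = (u + d1) * (u + d2) * (u + d3)) →
      P1 = p3 * (d * e + d * f + e * f) → P2 = p3 * (d + e + f) →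
      0 ≤ ((e - d) * (f - d)) * (A0 / p3 - A1 / p3 * d + A2 / p3 * d ^ 2 - a3 / p3 * d ^ 3) := by
    intro d e f hu h1 h2
    have h3 := hF2 (-d)
    rw [hpoly (-d), ← hu (-d)] at h3
    have h4 : ((e - d) * (f - d)) * (A0 / p3 - A1 / p3 * d + A2 / p3 * d ^ 2 - a3 / p3 * d ^ 3) =
      ((P1 + 2 * P2 * -d + 3 * p3 * (-d) ^ 2) * (A0 + A1 * -d + A2 * (-d) ^ 2 + a3 * (-d) ^ 3) -
        p3 * ((-d + d) * (-d + e) * (-d + f)) * (A1 + 2 * A2 * -d + 3 * a3 * (-d) ^ 2)) / p3 ^ 2 := by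
      rw [h1, h2]; field_simp; ring
    rw [h4]; positivity
  have W1 := hW d1 d2 d3 (fun u => rfl) (by rw [k1]) (by rw [k2])
  have W2 := hW d2 d1 d3 (fun u => by ring) (by rw [k1]; ring) (by rw [k2]; ring)
  have W3 := hW d3 d1 d2 (fun u => by ring) (by rw [k1]; ring) (by rw [k2]; ring)
  have cr := core hsos g1 g2 g3 h12 h13 h23 hN W1 W2 W3 (div_nonneg ha3 hp3.le) R1 R2 R3
    (x := x) (y := y) (x' := x') (r := r) (Y' := Y') (τ := τ / p3)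
    (by rw [hx, ← hF]; field_simp) hy
    (by rw [hyy, ← hF]; congr 1; field_simp)
    (by rw [hτ, ← hD]; field_simp)
    (by rw [hx']; field_simp)
    hr (by rw [hY']; congr 1; field_simp)
  exact ⟨cr.2.1, cr.2.2⟩


/-- leading coefficient of a nonnegative polynomial of degree two, from values at infinity -/
lemma lead_nonneg {α β γ : ℝ} (h : ∀ u : ℝ, 0 ≤ α * u ^ 2 + β * u + γ) : 0 ≤ α := by
  by_contra hneg
  push Not at hneg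
  have h1 := h ((|β| + |γ| + 1) / (-α) + 1)
  set M := (|β| + |γ| + 1) / (-α) + 1 with hM
  have h0 : 0 < (|β| + |γ| + 1) / (-α) := by
    apply div_pos _ (by linarith)
    positivity
  have hM1 : 1 ≤ M := by linarith
  have h2 : α * M ≤ -(|β| + |γ| + 1) := by
    have : α * ((|β| + |γ| + 1) / (-α)) = -(|β| + |γ| + 1) := by
      have : α ≠ 0 := hneg.ne
      field_simp
    rw [hM, mul_add, this]; linarith
  have h3 : α * M ^ 2 ≤ -(|β| + |γ| + 1) * M := by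
    have := mul_le_mul_of_nonneg_right h2 (by linarith : (0 : ℝ) ≤ M)
    nlinarith
  have h4 : β * M ≤ |β| * M := mul_le_mul_of_nonneg_right (le_abs_self β) (by linarith)
  have h5 : γ ≤ |γ| * M := by
    have := le_abs_self γ
    have := mul_le_mul_of_nonneg_left hM1 (abs_nonneg γ)
    linarith
  nlinarith

/-- consequences of real-rootedness -/
lemma p2_ge {p0 p1 p2 p3 : ℝ} (hp0 : 0 < p0) (hp1 : 0 < p1) (hp2 : 0 < p2) (hp3 : 0 < p3)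
    (hRR : ∀ u : ℝ, 0 ≤ 2 * (p1 + 2 * p2 * u + 3 * p3 * u ^ 2) ^ 2 -
      3 * (p0 + p1 * u + p2 * u ^ 2 + p3 * u ^ 3) * (2 * p2 + 6 * p3 * u))
    (h : p1 ≤ 3 * p0) : 3 * p3 ≤ p2 := by
  have h0 := hRR 0
  have h1 : 3 * (p0 * p2) ≤ p1 ^ 2 := by nlinarith
  have h2 : 0 ≤ 2 * p2 ^ 2 - 6 * (p1 * p3) := by
    apply lead_nonneg (β := 2 * p1 * p2 - 18 * p0 * p3) (γ := 2 * p1 ^ 2 - 6 * p0 * p2)
    intro u
    have := hRR u
    refine this.trans (le_of_eq ?_)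
    ring
  -- p1 p2 ≥ 9 p0 p3
  have h3 : 9 * (p0 * p3) ≤ p1 * p2 := by
    by_contra hneg
    push Not at hneg
    have a1 : (3 * (p0 * p2)) * (3 * (p1 * p3)) ≤ p1 ^ 2 * p2 ^ 2 := by
      apply mul_le_mul h1 (by linarith) (by positivity) (by positivity)
    have a2 : (p1 * p2) * (9 * (p0 * p3)) ≤ (p1 * p2) * (p1 * p2) := by nlinarith
    have := le_of_mul_le_mul_left a2 (mul_pos hp1 hp2)
    linarith
  have h4 : 9 * (p0 * p3) ≤ (3 * p0) * p2 := h3.trans (mul_le_mul_of_nonneg_right h hp2.le)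
  have h5 : p0 * (3 * p3) ≤ p0 * p2 := by linarith
  exact le_of_mul_le_mul_left h5 hp0

/-- **The step estimate.** -/
theorem cubic_step (hsos : S_sos) (hcub : S_cub) {p0 p1 p2 p3 a0 a1 a2 a3 b0 b1 b2 b3 : ℝ}
    (hp0 : 0 < p0) (hp1 : 0 < p1) (hp2 : 0 < p2) (hp3 : 0 < p3) (ha3 : 0 ≤ a3)
    (hRR : ∀ u : ℝ, 0 ≤ 2 * (p1 + 2 * p2 * u + 3 * p3 * u ^ 2) ^ 2 -
      3 * (p0 + p1 * u + p2 * u ^ 2 + p3 * u ^ 3) * (2 * p2 + 6 * p3 * u))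
    (hF1 : ∀ ε u : ℝ, 0 < ε →
      0 ≤ (c0 ε a0 a1 a2 + c1 ε a1 a2 a3 * u + c2 ε a2 a3 * u ^ 2 + a3 * u ^ 3) ^ 2
      - (c0 ε p0 p1 p2 + c1 ε p1 p2 p3 * u + c2 ε p2 p3 * u ^ 2 + p3 * u ^ 3) *
        (c0 ε b0 b1 b2 + c1 ε b1 b2 b3 * u + c2 ε b2 b3 * u ^ 2 + b3 * u ^ 3))
    (hF2 : ∀ ε u : ℝ, 0 < ε → 0 ≤ (c1 ε p1 p2 p3 + 2 * c2 ε p2 p3 * u + 3 * p3 * u ^ 2) *
        (c0 ε a0 a1 a2 + c1 ε a1 a2 a3 * u + c2 ε a2 a3 * u ^ 2 + a3 * u ^ 3)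
      - (c0 ε p0 p1 p2 + c1 ε p1 p2 p3 * u + c2 ε p2 p3 * u ^ 2 + p3 * u ^ 3) *
        (c1 ε a1 a2 a3 + 2 * c2 ε a2 a3 * u + 3 * a3 * u ^ 2))
    (hI1 : p1 ≤ 3 * p0) (hI2 : (p1 / 3) ^ 2 - p0 * (p2 / 3) ≤ (61 / 20 * p0 - p1) ^ 2)
    (hJ1 : a0 ≤ p0) (hJ2 : a0 ^ 2 - p0 * b0 ≤ (61 / 20 * p0 - 3 * a0) ^ 2) :
    0 < p2 - 1503 / 1000 * p3 ∧ a2 - 1503 / 1000 * a3 ≤ p2 - 1503 / 1000 * p3 ∧
    (a2 - 1503 / 1000 * a3) ^ 2 - (p2 - 1503 / 1000 * p3) * (b2 - 1503 / 1000 * b3) ≤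
      (61 / 20 * (p2 - 1503 / 1000 * p3) - 3 * (a2 - 1503 / 1000 * a3)) ^ 2 := by
  have hp23 := p2_ge hp0 hp1 hp2 hp3 hRR hI1
  have hτ0 : 0 < p2 - 1503 / 1000 * p3 := by linarith
  refine ⟨hτ0, ?_⟩
  -- continuous functions of ε
  let F : ℝ → ℝ := fun ε => c0 ε p0 p1 p2
  let X : ℝ → ℝ := fun ε => c0 ε a0 a1 a2 / F ε
  let Ysq : ℝ → ℝ := fun ε => (X ε) ^ 2 - c0 ε b0 b1 b2 / F ε
  let Y : ℝ → ℝ := fun ε => √(Ysq ε)
  let T : ℝ → ℝ := fun ε => c2 ε p2 p3 - 1503 / 1000 * p3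
  let X' : ℝ → ℝ := fun ε => (c2 ε a2 a3 - 1503 / 1000 * a3) / T ε
  let R : ℝ → ℝ := fun ε => X ε - X' ε
  let Y' : ℝ → ℝ := fun ε => (X' ε) ^ 2 - (c2 ε b2 b3 - 1503 / 1000 * b3) / T ε
  have cc0 : ∀ f0 f1 f2 : ℝ, Continuous fun ε => c0 ε f0 f1 f2 := by
    intro f0 f1 f2; unfold c0; fun_prop
  have cc1 : ∀ f0 f1 f2 : ℝ, Continuous fun ε => c1 ε f0 f1 f2 := by
    intro f0 f1 f2; unfold c1; fun_prop
  have cc2 : ∀ f0 f1 : ℝ, Continuous fun ε => c2 ε f0 f1 := by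
    intro f0 f1; unfold c2; fun_prop
  have F0 : F 0 = p0 := by simp [F, c0]
  have T0 : T 0 = p2 - 1503 / 1000 * p3 := by simp [T, c2]
  have hF0 : F 0 ≠ 0 := by rw [F0]; exact hp0.ne'
  have hT0 : T 0 ≠ 0 := by rw [T0]; exact hτ0.ne'
  have cF : ContinuousAt F 0 := (cc0 _ _ _).continuousAt
  have cT : ContinuousAt T 0 := ((cc2 _ _).sub continuous_const).continuousAt
  have cX : ContinuousAt X 0 := (cc0 _ _ _).continuousAt.div cF hF0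
  have cYsq : ContinuousAt Ysq 0 := (cX.pow 2).sub ((cc0 _ _ _).continuousAt.div cF hF0)
  have cY : ContinuousAt Y 0 := cYsq.sqrt
  have cX' : ContinuousAt X' 0 := ((cc2 _ _).sub continuous_const).continuousAt.div cT hT0
  have cR : ContinuousAt R 0 := cX.sub cX'
  have cY' : ContinuousAt Y' 0 :=
    (cX'.pow 2).sub (((cc2 _ _).sub continuous_const).continuousAt.div cT hT0)
  -- the region at small ε
  have E1 : ∀ᶠ ε in 𝓝[>] (0 : ℝ), 0 < 1831 / 100 * c0 ε p0 p1 p2 - 6 * c1 ε p1 p2 p3 := by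
    apply Filter.Eventually.filter_mono nhdsWithin_le_nhds
    have c : Continuous fun ε => 1831 / 100 * c0 ε p0 p1 p2 - 6 * c1 ε p1 p2 p3 :=
      (continuous_const.mul (cc0 _ _ _)).sub (continuous_const.mul (cc1 _ _ _))
    apply c.continuousAt.eventually (lt_mem_nhds _)
    simp only [c0, c1]; nlinarith
  have E2 : ∀ᶠ ε in 𝓝[>] (0 : ℝ), 4 * (c1 ε p1 p2 p3 ^ 2 - 3 * (c0 ε p0 p1 p2 * c2 ε p2 p3)) <
      (1831 / 100 * c0 ε p0 p1 p2 - 6 * c1 ε p1 p2 p3) ^ 2 := by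
    apply Filter.Eventually.filter_mono nhdsWithin_le_nhds
    have c : Continuous fun ε => (1831 / 100 * c0 ε p0 p1 p2 - 6 * c1 ε p1 p2 p3) ^ 2 -
        4 * (c1 ε p1 p2 p3 ^ 2 - 3 * (c0 ε p0 p1 p2 * c2 ε p2 p3)) :=
      (((continuous_const.mul (cc0 _ _ _)).sub (continuous_const.mul (cc1 _ _ _))).pow 2).sub
        (continuous_const.mul (((cc1 _ _ _).pow 2).sub
          (continuous_const.mul ((cc0 _ _ _).mul (cc2 _ _)))))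
    have h0 : 0 < (1831 / 100 * c0 0 p0 p1 p2 - 6 * c1 0 p1 p2 p3) ^ 2 -
        4 * (c1 0 p1 p2 p3 ^ 2 - 3 * (c0 0 p0 p1 p2 * c2 0 p2 p3)) := by
      have e0 : c0 0 p0 p1 p2 = p0 := by simp [c0]
      have e1 : c1 0 p1 p2 p3 = p1 := by simp [c1]
      have e2 : c2 0 p2 p3 = p2 := by simp [c2]
      rw [e0, e1, e2]
      nlinarith
    have := c.continuousAt.eventually (lt_mem_nhds h0)
    filter_upwards [this] with ε hε
    linarith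
  have E3 : ∀ᶠ ε in 𝓝[>] (0 : ℝ), 0 < ε := eventually_mem_nhdsWithin
  have main : ∀ᶠ ε in 𝓝[>] (0 : ℝ), 0 ≤ R ε ∧
      Y' ε ≤ (Y ε + R ε) ^ 2 + 1 / 5 * (X ε * R ε) + 8 * (R ε) ^ 2 := by
    filter_upwards [E1, E2, E3] with ε h1 h2 h3
    have hFpos : 0 < F ε := by
      show 0 < c0 ε p0 p1 p2
      unfold c0; positivity
    have hys : 0 ≤ Ysq ε := by
      have h := hF1 ε 0 h3
      have e : Ysq ε = ((c0 ε a0 a1 a2) ^ 2 - F ε * c0 ε b0 b1 b2) / (F ε) ^ 2 := by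
        show (c0 ε a0 a1 a2 / F ε) ^ 2 - c0 ε b0 b1 b2 / F ε = _
        field_simp
      rw [e]
      apply div_nonneg _ (by positivity)
      refine h.trans (le_of_eq ?_)
      show _ = (c0 ε a0 a1 a2) ^ 2 - c0 ε p0 p1 p2 * c0 ε b0 b1 b2
      ring
    exact at_eps hsos hcub hp0 hp1 hp2 hp3 ha3 hRR h3 (fun u => hF1 ε u h3) (fun u => hF2 ε u h3)
      h1 h2 (x := X ε) (y := Y ε) (x' := X' ε) (r := R ε) (Y' := Y' ε) (τ := T ε) rfl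
      (Real.sqrt_nonneg _) (Real.sq_sqrt hys) rfl rfl rfl rfl
  have hR0 : 0 ≤ R 0 := ge_of_tendsto (cR.tendsto.mono_left nhdsWithin_le_nhds)
    (main.mono (fun ε h => h.1))
  have hY0 : Y' 0 ≤ (Y 0 + R 0) ^ 2 + 1 / 5 * (X 0 * R 0) + 8 * (R 0) ^ 2 := by
    have cG : ContinuousAt (fun ε => (Y ε + R ε) ^ 2 + 1 / 5 * (X ε * R ε) + 8 * (R ε) ^ 2) 0 :=
      (((cY.add cR).pow 2).add (continuousAt_const.mul (cX.mul cR))).add
        (continuousAt_const.mul (cR.pow 2))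
    exact le_of_tendsto_of_tendsto (cY'.tendsto.mono_left nhdsWithin_le_nhds)
      (cG.tendsto.mono_left nhdsWithin_le_nhds) (main.mono (fun ε h => h.2))
  -- values at 0
  have eX : X 0 = a0 / p0 := by simp [X, F, c0]
  have eX' : X' 0 = (a2 - 1503 / 1000 * a3) / (p2 - 1503 / 1000 * p3) := by simp [X', T, c2]
  have eY' : Y' 0 = (X' 0) ^ 2 - (b2 - 1503 / 1000 * b3) / (p2 - 1503 / 1000 * p3) := by
    simp [Y', T, c2]
  have eYs : Ysq 0 = (a0 ^ 2 - p0 * b0) / p0 ^ 2 := by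
    have : Ysq 0 = (a0 / p0) ^ 2 - b0 / p0 := by simp [Ysq, X, F, c0]
    rw [this]; field_simp
  have hX1 : X 0 ≤ 1 := by rw [eX, div_le_one hp0]; exact hJ1
  set W : ℝ := 61 / 20 - 3 * X 0 with hW
  have hW0 : 1 / 20 ≤ W := by rw [hW]; linarith
  have hYW : Y 0 ≤ W := by
    apply Real.sqrt_le_iff.2
    refine ⟨by linarith, ?_⟩
    rw [eYs, div_le_iff₀ (by positivity), hW, eX]
    refine hJ2.trans (le_of_eq ?_)
    field_simp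
  have hY00 : 0 ≤ Y 0 := Real.sqrt_nonneg _
  have hfin : Y' 0 ≤ (61 / 20 - 3 * X' 0) ^ 2 := by
    have e1 : 61 / 20 - 3 * X' 0 = W + 3 * R 0 := by
      show _ = W + 3 * (X 0 - X' 0)
      rw [hW]; ring
    rw [e1]
    refine hY0.trans ?_
    have h1 : (Y 0) ^ 2 ≤ W ^ 2 := pow_le_pow_left₀ hY00 hYW 2
    have h2 : 0 ≤ R 0 * (6 * W - 2 * Y 0 - 1 / 5 * X 0) := mul_nonneg hR0 (by linarith)
    nlinarith
  have hXX : X' 0 ≤ 1 := by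
    have : X' 0 = X 0 - R 0 := by show X' 0 = X 0 - (X 0 - X' 0); ring
    linarith
  constructor
  · rw [eX', div_le_one hτ0] at hXX
    exact hXX
  · rw [eY', eX'] at hfin
    have h1 := mul_le_mul_of_nonneg_right hfin (sq_nonneg (p2 - 1503 / 1000 * p3))
    have k1 : ∀ A T B : ℝ, T ≠ 0 → ((A / T) ^ 2 - B / T) * T ^ 2 = A ^ 2 - T * B := by
      intro A T B h; field_simp
    have k2 : ∀ A T : ℝ, T ≠ 0 → (61 / 20 - 3 * (A / T)) ^ 2 * T ^ 2 =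
        (61 / 20 * T - 3 * A) ^ 2 := by
      intro A T h; field_simp
    rw [k1 _ _ _ hτ0.ne', k2 _ _ hτ0.ne'] at h1
    exact h1

end Pool.Agent.W702.Pave
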