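import Pool.Agent.W676.KS.Abs

/-!
Definitions and the list of statements for the three-paving theorem (MP_2fb14c_an, S04243).
-/

namespace Pool.Agent.W702.Pave

open H990SF Pool.Agent.W676.KS Matrix

section
variable {U : Type*} [DecidableEq U]

/-- Iterated derivative. -/
def DL (E : List U) (f : (U → ℂ) → ℂ) : (U → ℂ) → ℂ := E.foldr pd f

/-- Positive far away. -/
def Big (f : (U → ℂ) → ℂ) : Prop := ∃ R : ℝ, ∀ w : U → ℝ, (∀ e, R ≤ w e) → 0 < rl f w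

end

section
variable {I : Type*} [DecidableEq I]

/-- second elementary symmetric function of the three colour derivatives at `i` -/
def op3 (i : I) (f : (I × Fin 3 → ℂ) → ℂ) : (I × Fin 3 → ℂ) → ℂ := fun z =>
  pd (i, 0) (pd (i, 1) f) z + pd (i, 0) (pd (i, 2) f) z + pd (i, 1) (pd (i, 2) f) z

/-- iterated operators -/
def cP (F : (I × Fin 3 → ℂ) → ℂ) : List I → ((I × Fin 3 → ℂ) → ℂ)
  | [] => F
  | i :: L => op3 i (cP F L)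

/-- Invariant: good, and all derivatives in directions off `L` are positive far away. -/
structure VG (L : List I) (f : (I × Fin 3 → ℂ) → ℂ) : Prop where
  good : Good f
  big : ∀ E : List (I × Fin 3), E.Nodup → (∀ e ∈ E, e.1 ∉ L) → Big (DL E f)

/-- Invariance under colour permutations. -/
def Sym (f : (I × Fin 3 → ℂ) → ℂ) : Prop :=
  ∀ (π : Equiv.Perm (Fin 3)) (z : I × Fin 3 → ℂ), f (fun e => z (e.1, π e.2)) = f z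

/-- The product of three characteristic determinants. -/
noncomputable def FQ [Fintype I] (Q : Matrix I I ℂ) : (I × Fin 3 → ℂ) → ℂ := fun z =>
  ∏ c : Fin 3, (Matrix.diagonal (fun i => z (i, c)) - Q).det

end

/-! Statements. -/

/-- A1 -/
def S_pd : Prop := ∀ (U : Type) [DecidableEq U] [Fintype U] (f : (U → ℂ) → ℂ) (e : U),
  Good f → Big (pd e f) → Good (pd e f)

/-- A2 -/
def S_op : Prop := ∀ (I : Type) [DecidableEq I] [Fintype I] (f : (I × Fin 3 → ℂ) → ℂ) (L : List I)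
  (i : I), VG L f → i ∉ L → VG (i :: L) (op3 i f)

/-- A3 -/
def S_tr : Prop := ∀ (I : Type) [DecidableEq I] [Fintype I] (f : (I × Fin 3 → ℂ) → ℂ) (i : I)
  (ε : ℝ), Good f → Good (fun z => f z + (ε : ℂ) * (pd (i, 0) f z + pd (i, 1) f z + pd (i, 2) f z))

/-- B1 -/
def S_ab : Prop := ∀ (I : Type) [DecidableEq I] [Fintype I] (f : (I × Fin 3 → ℂ) → ℂ) (L : List I)
  (z : I × Fin 3 → ℝ) (E : List (I × Fin 3)), VG L f → Above (rl f) z → E.Nodup →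
  (∀ e ∈ E, e.1 ∉ L) → Above (rl (DL E f)) z

/-- B2 -/
def S_low : Prop := ∀ (I : Type) [DecidableEq I] [Fintype I] (f : (I × Fin 3 → ℂ) → ℂ) (L : List I)
  (i : I) (z z' : I × Fin 3 → ℝ), VG L f → i ∉ L → Above (rl f) z →
  (∀ e, e.1 ≠ i → z' e = z e) → 0 < rl (op3 i f) z' → Above (rl (op3 i f)) z'

/-- B3 -/
def S_sel : Prop := ∀ (I : Type) [DecidableEq I] [Fintype I] (f : (I × Fin 3 → ℂ) → ℂ) (L : List I)
  (i : I) (y : I × Fin 3 → ℝ), VG L f → i ∉ L → Above (rl (op3 i f)) y →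
  ∃ (c : Fin 3) (y' : I × Fin 3 → ℝ), y' (i, c) = y (i, c) ∧ (∀ e, e.1 ≠ i → y' e = y e) ∧
    Above (rl f) y'

/-- C1 -/
def S_vg : Prop := ∀ (I : Type) [DecidableEq I] [Fintype I] (Q : Matrix I I ℂ), Q.IsHermitian →
  (∀ ξ : I → ℂ, (star ξ ⬝ᵥ (Q *ᵥ ξ)).re ≤ ∑ i, ‖ξ i‖ ^ 2) → VG [] (FQ Q)

/-- C2 -/
def S_pos : Prop := ∀ (I : Type) [DecidableEq I] [Fintype I] (Q : Matrix I I ℂ) (x : ℝ),
  Q.IsHermitian → (∀ ξ : I → ℂ, (star ξ ⬝ᵥ (Q *ᵥ ξ)).re ≤ ∑ i, ‖ξ i‖ ^ 2) → 1 < x →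
  Above (rl (FQ Q)) (fun _ => x)

/-- C3 -/
def S_ini : Prop := ∀ (I : Type) [DecidableEq I] [Fintype I] (Q : Matrix I I ℂ) (x : ℝ) (j : I),
  Q.IsHermitian → Q * Q = Q → Q j j = 1 / 2 → 1 < x →
  D (j, 0) (rl (FQ Q)) (fun _ => x) = (1 / 2) * (1 / x + 1 / (x - 1)) * rl (FQ Q) (fun _ => x) ∧
  rl (FQ Q) (fun _ => x) * D (j, 0) (D (j, 1) (rl (FQ Q))) (fun _ => x) =
    (D (j, 0) (rl (FQ Q)) (fun _ => x)) ^ 2

/-- C4 -/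
def S_sym : Prop := ∀ (I : Type) [DecidableEq I] [Fintype I] (Q : Matrix I I ℂ), Sym (FQ Q)

/-- C5 -/
def S_fin : Prop := ∀ (I : Type) [DecidableEq I] [Fintype I] (Q : Matrix I I ℂ)
  (y : I × Fin 3 → ℝ) (σ : I → Fin 3) (θ : ℝ), Q.IsHermitian → (∀ i, y (i, σ i) = θ) →
  Above (rl (FQ Q)) y → ∀ (c : Fin 3) (ξ : I → ℂ), (∀ i, σ i ≠ c → ξ i = 0) →
  (star ξ ⬝ᵥ (Q *ᵥ ξ)).re ≤ θ * ∑ i, ‖ξ i‖ ^ 2

/-- the paving statement for projections with diagonal 1/2 -/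
def S_pave : Prop := ∃ θ : ℝ, θ < 1 ∧ ∀ (I : Type) [DecidableEq I] [Fintype I] (Q : Matrix I I ℂ),
  Q.IsHermitian → Q * Q = Q → (∀ i, Q i i = 1 / 2) → ∃ σ : I → Fin 3, ∀ (c : Fin 3) (ξ : I → ℂ),
    (∀ i, σ i ≠ c → ξ i = 0) → (star ξ ⬝ᵥ (Q *ᵥ ξ)).re ≤ θ * ∑ i, ‖ξ i‖ ^ 2

/-- D : the frozen statement from the paving statement -/
def S_frame : Prop := S_pave →
    ∃ A B : ℝ, 0 < A ∧ A ≤ B ∧
      ∀ (n M : ℕ) (u : Fin M → EuclideanSpace ℂ (Fin n)),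
        (∀ i, ‖u i‖ = 1) →
        (∀ x : EuclideanSpace ℂ (Fin n),
          ∑ i, ‖(inner ℂ (u i) x : ℂ)‖ ^ 2 = 2 * ‖x‖ ^ 2) →
        ∃ f : Fin M → Fin 3, ∀ (j : Fin 3) (c : Fin M → ℂ),
          A * ∑ i ∈ Finset.univ.filter (fun i => f i = j), ‖c i‖ ^ 2
              ≤ ‖∑ i ∈ Finset.univ.filter (fun i => f i = j), c i • u i‖ ^ 2 ∧
          ‖∑ i ∈ Finset.univ.filter (fun i => f i = j), c i • u i‖ ^ 2
              ≤ B * ∑ i ∈ Finset.univ.filter (fun i => f i = j), ‖c i‖ ^ 2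

/-- E1 : sums of two squares, in coordinates -/
def S_sos : Prop := ∀ n0 n1 n2 n3 n4 n5 n6 : ℝ,
  (∀ u : ℝ, 0 ≤ n0 + n1 * u + n2 * u ^ 2 + n3 * u ^ 3 + n4 * u ^ 4 + n5 * u ^ 5 + n6 * u ^ 6) →
  ∃ a0 a1 a2 a3 b0 b1 b2 b3 : ℝ,
    (∀ u : ℝ, n0 + n1 * u + n2 * u ^ 2 + n3 * u ^ 3 + n4 * u ^ 4 + n5 * u ^ 5 + n6 * u ^ 6 =
      (a0 + a1 * u + a2 * u ^ 2 + a3 * u ^ 3) ^ 2 + (b0 + b1 * u + b2 * u ^ 2 + b3 * u ^ 3) ^ 2) ∧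
    n6 = a3 ^ 2 + b3 ^ 2 ∧ n5 = 2 * a3 * a2 + 2 * b3 * b2

/-- E2 : after `(1 + ε ∂)²` a real-rooted cubic (Hessian criterion) has three distinct real
roots. Here `p = A u³ + ...` and `(1+ε∂)² p = p + 2 ε p' + ε² p''`. -/
def S_cub : Prop := ∀ p0 p1 p2 p3 ε : ℝ, 0 < p3 → ε ≠ 0 →
  (∀ u : ℝ, 0 ≤ 2 * (p1 + 2 * p2 * u + 3 * p3 * u ^ 2) ^ 2 -
    3 * (p0 + p1 * u + p2 * u ^ 2 + p3 * u ^ 3) * (2 * p2 + 6 * p3 * u)) →
  ∃ d1 d2 d3 : ℝ, d1 ≠ d2 ∧ d1 ≠ d3 ∧ d2 ≠ d3 ∧ ∀ u : ℝ,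
    (p0 + p1 * u + p2 * u ^ 2 + p3 * u ^ 3) + 2 * ε * (p1 + 2 * p2 * u + 3 * p3 * u ^ 2)
      + ε ^ 2 * (2 * p2 + 6 * p3 * u) = p3 * ((u + d1) * (u + d2) * (u + d3))

end Pool.Agent.W702.Pave
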