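import Pool.Agent.W702.Pave.Defs

/-!
Colour derivatives along a line and symmetry.
-/

namespace Pool.Agent.W702.Pave

open Pool.Agent.W676.KS

variable {I : Type*} [DecidableEq I]

/-- sum of the colour derivatives at `i` -/
def S1 (i : I) (P : (I × Fin 3 → ℝ) → ℝ) : (I × Fin 3 → ℝ) → ℝ := fun x =>
  D (i, 0) P x + D (i, 1) P x + D (i, 2) P x

/-- second symmetric function of the colour derivatives at `i` -/
def S2 (i : I) (P : (I × Fin 3 → ℝ) → ℝ) : (I × Fin 3 → ℝ) → ℝ := fun x =>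
  D (i, 0) (D (i, 1) P) x + D (i, 0) (D (i, 2) P) x + D (i, 1) (D (i, 2) P) x

/-- third symmetric function of the colour derivatives at `i` -/
def S3 (i : I) (P : (I × Fin 3 → ℝ) → ℝ) : (I × Fin 3 → ℝ) → ℝ := fun x =>
  D (i, 0) (D (i, 1) (D (i, 2) P)) x

/-- the operator `1 + ε S1` -/
def RT (ε : ℝ) (i : I) (P : (I × Fin 3 → ℝ) → ℝ) : (I × Fin 3 → ℝ) → ℝ := fun x =>
  P x + ε * S1 i P x

section
variable {U : Type*} [DecidableEq U]

lemma D_add (k : U) (P Q : (U → ℝ) → ℝ) (x : U → ℝ) :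
    D k (fun x => P x + Q x) x = D k P x + D k Q x := by simp only [D]; ring

lemma D_smul (k : U) (ε : ℝ) (P : (U → ℝ) → ℝ) (x : U → ℝ) :
    D k (fun x => ε * P x) x = ε * D k P x := by simp only [D]; ring

lemma D_comm' (i j : U) (P : (U → ℝ) → ℝ) : D i (D j P) = D j (D i P) := by
  funext x; exact D_comm i j P x

lemma D_self' (i : U) (P : (U → ℝ) → ℝ) : D i (D i P) = fun _ => 0 := by
  funext x; exact D_self i P x

lemma D_zero (i : U) : D i (fun _ : U → ℝ => (0 : ℝ)) = fun _ => 0 := by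
  funext x; simp [D]

end

lemma D_S1 (k : I × Fin 3) (i : I) (P : (I × Fin 3 → ℝ) → ℝ) (x : I × Fin 3 → ℝ) :
    D k (S1 i P) x = D k (D (i, 0) P) x + D k (D (i, 1) P) x + D k (D (i, 2) P) x := by
  simp only [D, S1]; ring

lemma D_S1' (k : I × Fin 3) (i : I) (P : (I × Fin 3 → ℝ) → ℝ) :
    D k (S1 i P) = S1 i (D k P) := by
  funext x
  rw [D_S1, D_comm' k, D_comm' k, D_comm' k]; rfl

lemma D_S2 (k : I × Fin 3) (i : I) (P : (I × Fin 3 → ℝ) → ℝ) (x : I × Fin 3 → ℝ) :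
    D k (S2 i P) x = D k (D (i, 0) (D (i, 1) P)) x + D k (D (i, 0) (D (i, 2) P)) x
      + D k (D (i, 1) (D (i, 2) P)) x := by
  simp only [D, S2]; ring

lemma D_S2' (k : I × Fin 3) (i : I) (P : (I × Fin 3 → ℝ) → ℝ) :
    D k (S2 i P) = S2 i (D k P) := by
  funext x
  rw [D_S2, D_comm' k (i, 0), D_comm' k (i, 0), D_comm' k (i, 1), D_comm' k (i, 1),
    D_comm' k (i, 2)]; rfl

lemma S1_S1 (i : I) (P : (I × Fin 3 → ℝ) → ℝ) (x : I × Fin 3 → ℝ) :
    S1 i (S1 i P) x = 2 * S2 i P x := by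
  show D (i, 0) (S1 i P) x + D (i, 1) (S1 i P) x + D (i, 2) (S1 i P) x = _
  rw [D_S1, D_S1, D_S1, D_self, D_self, D_self, D_comm (i, 1) (i, 0), D_comm (i, 2) (i, 0),
    D_comm (i, 2) (i, 1)]
  simp only [S2]; ring

lemma S1_S2 (i : I) (P : (I × Fin 3 → ℝ) → ℝ) (x : I × Fin 3 → ℝ) :
    S1 i (S2 i P) x = 3 * S3 i P x := by
  show D (i, 0) (S2 i P) x + D (i, 1) (S2 i P) x + D (i, 2) (S2 i P) x = _
  rw [D_S2, D_S2, D_S2, D_self, D_self, D_self, D_comm (i, 1) (i, 0), D_self' (i, 1), D_zero,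
    D_comm (i, 1) (i, 0), D_comm (i, 2) (i, 0), D_comm' (i, 2) (i, 1), D_comm (i, 2) (i, 0),
    D_self' (i, 2), D_zero, D_comm (i, 2) (i, 1), D_self' (i, 2), D_zero]
  simp only [S3]; ring

/-- the line through `z` in the diagonal direction at `i` -/
def ln (z : I × Fin 3 → ℝ) (i : I) (u : ℝ) : I × Fin 3 → ℝ := fun e =>
  if e.1 = i then z e + u else z e

lemma ln_eq (z : I × Fin 3 → ℝ) (i : I) (u : ℝ) :
    ln z i u = Function.update (Function.update (Function.update z (i, 0) (z (i, 0) + u))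
      (i, 1) (z (i, 1) + u)) (i, 2) (z (i, 2) + u) := by
  funext e
  obtain ⟨j, c⟩ := e
  by_cases h : j = i
  · subst h
    fin_cases c <;> simp [ln, Function.update]
  · simp [ln, h]

/-- expansion along the line -/
lemma line0 {P : (I × Fin 3 → ℝ) → ℝ} (hA : Aff P) (z : I × Fin 3 → ℝ) (i : I) (u : ℝ) :
    P (ln z i u) = P z + S1 i P z * u + S2 i P z * u ^ 2 + S3 i P z * u ^ 3 := by
  have h01 : ((i, 0) : I × Fin 3) ≠ (i, 1) := by simp
  have h02 : ((i, 0) : I × Fin 3) ≠ (i, 2) := by simp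
  have h12 : ((i, 1) : I × Fin 3) ≠ (i, 2) := by simp
  rw [ln_eq]
  set w := Function.update (Function.update z (i, 0) (z (i, 0) + u)) (i, 1) (z (i, 1) + u) with hw
  have hw2 : w (i, 2) = z (i, 2) := by
    rw [hw, Function.update_of_ne h12.symm, Function.update_of_ne h02.symm]
  have e1 := hA w (i, 2) (z (i, 2) + u)
  rw [hw2] at e1
  rw [e1, hw, hA.two h01, (hA.dd (i, 2)).two h01]
  simp only [S1, S2, S3]
  rw [D_comm (i, 1) (i, 2)]
  ring

lemma aff_add {U : Type*} [DecidableEq U] {P Q : (U → ℝ) → ℝ} (hP : Aff P) (hQ : Aff Q) :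
    Aff (fun x => P x + Q x) := by
  intro x i t
  simp only [D_add]
  rw [hP x i t, hQ x i t]; ring

lemma aff_smul {U : Type*} [DecidableEq U] {P : (U → ℝ) → ℝ} (hP : Aff P) (ε : ℝ) :
    Aff (fun x => ε * P x) := by
  intro x i t
  simp only [D_smul]
  rw [hP x i t]; ring

lemma aff_S1 {P : (I × Fin 3 → ℝ) → ℝ} (hA : Aff P) (i : I) : Aff (S1 i P) := by
  exact aff_add (aff_add (hA.dd _) (hA.dd _)) (hA.dd _)

lemma aff_S2 {P : (I × Fin 3 → ℝ) → ℝ} (hA : Aff P) (i : I) : Aff (S2 i P) := by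
  exact aff_add (aff_add ((hA.dd _).dd _) ((hA.dd _).dd _)) ((hA.dd _).dd _)

lemma line1 {P : (I × Fin 3 → ℝ) → ℝ} (hA : Aff P) (z : I × Fin 3 → ℝ) (i : I) (u : ℝ) :
    S1 i P (ln z i u) = S1 i P z + 2 * S2 i P z * u + 3 * S3 i P z * u ^ 2 := by
  have h := line0 (aff_S1 hA i) z i u
  have e2 : S2 i (S1 i P) z = 3 * S3 i P z := by
    have a := S1_S1 i (S1 i P) z
    have b : S1 i (S1 i (S1 i P)) z = S1 i (fun x => 2 * S2 i P x) z := by
      have : S1 i (S1 i P) = fun x => 2 * S2 i P x := by funext x; exact S1_S1 i P x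
      rw [this]
    have c : S1 i (fun x => 2 * S2 i P x) z = 2 * S1 i (S2 i P) z := by
      simp only [S1, D_smul]; ring
    rw [b, c, S1_S2] at a
    linarith
  have e3 : S3 i (S1 i P) z = 0 := by
    show D (i, 0) (D (i, 1) (D (i, 2) (S1 i P))) z = 0
    have : D (i, 2) (S1 i P) = fun x => D (i, 2) (D (i, 0) P) x + D (i, 2) (D (i, 1) P) x := by
      funext x; rw [D_S1, D_self]; ring
    rw [this]
    have : D (i, 1) (fun x => D (i, 2) (D (i, 0) P) x + D (i, 2) (D (i, 1) P) x) =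
        D (i, 1) (D (i, 2) (D (i, 0) P)) := by
      funext x
      rw [D_add, D_comm' (i, 2) (i, 1), D_self]; ring
    rw [this, D_comm' (i, 1) (i, 2), D_comm' (i, 1) (i, 0), D_comm' (i, 2) (i, 0), D_self]
  rw [S1_S1, e2, e3] at h
  rw [h]; ring

lemma line2 {P : (I × Fin 3 → ℝ) → ℝ} (hA : Aff P) (z : I × Fin 3 → ℝ) (i : I) (u : ℝ) :
    S2 i P (ln z i u) = S2 i P z + 3 * S3 i P z * u := by
  have h1 := line1 (aff_S1 hA i) z i u
  have e1 : ∀ x, S1 i (S1 i P) x = 2 * S2 i P x := S1_S1 i P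
  have e2 : S2 i (S1 i P) z = 3 * S3 i P z := by
    have h2 := line1 hA z i 1
    have h3 := line0 (aff_S1 hA i) z i 1
    have h4 := line1 hA z i (-1)
    have h5 := line0 (aff_S1 hA i) z i (-1)
    rw [e1] at h3 h5
    linarith
  have e3 : S3 i (S1 i P) z = 0 := by
    have h2 := line1 hA z i 1
    have h3 := line0 (aff_S1 hA i) z i 1
    rw [e1, e2] at h3
    linarith
  rw [e1, e1, e2, e3] at h1
  linarith

/-! Symmetry -/

/-- permutation of the colours of a point -/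
def pm (π : Equiv.Perm (Fin 3)) (x : I × Fin 3 → ℝ) : I × Fin 3 → ℝ := fun e => x (e.1, π e.2)

/-- symmetric under permutations of colours -/
def SymR (P : (I × Fin 3 → ℝ) → ℝ) : Prop := ∀ (π : Equiv.Perm (Fin 3)) x, P (pm π x) = P x

lemma pm_update (π : Equiv.Perm (Fin 3)) (x : I × Fin 3 → ℝ) (k : I) (c : Fin 3) (t : ℝ) :
    Function.update (pm π x) (k, c) t = pm π (Function.update x (k, π c) t) := by
  funext e
  by_cases h : e = (k, c)
  · subst h; simp [pm]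
  · have : (e.1, π e.2) ≠ (k, π c) := by
      intro h2
      apply h
      obtain ⟨e1, e2⟩ := e
      simp only [Prod.mk.injEq] at h2 ⊢
      exact ⟨h2.1, π.injective h2.2⟩
    rw [Function.update_of_ne h]
    simp only [pm]
    rw [Function.update_of_ne this]

lemma D_pm {P Q : (I × Fin 3 → ℝ) → ℝ} (π : Equiv.Perm (Fin 3)) (h : ∀ x, P (pm π x) = Q x)
    (k : I) (c : Fin 3) (x : I × Fin 3 → ℝ) : D (k, c) P (pm π x) = D (k, π c) Q x := by
  simp only [D]
  rw [pm_update, pm_update, h, h]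

lemma sum3 (π : Equiv.Perm (Fin 3)) (g : Fin 3 → ℝ) :
    g (π 0) + g (π 1) + g (π 2) = g 0 + g 1 + g 2 := by
  have := Equiv.sum_comp π g
  simpa [Fin.sum_univ_three] using this

lemma SymR.S1 {P : (I × Fin 3 → ℝ) → ℝ} (h : SymR P) (i : I) : SymR (S1 i P) := by
  intro π x
  show D (i, 0) P (pm π x) + D (i, 1) P (pm π x) + D (i, 2) P (pm π x) = _
  rw [D_pm π (h π), D_pm π (h π), D_pm π (h π)]
  exact sum3 π (fun c => D (i, c) P x)

lemma SymR.S2 {P : (I × Fin 3 → ℝ) → ℝ} (h : SymR P) (i : I) : SymR (S2 i P) := by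
  intro π x
  have := (h.S1 i).S1 i π x
  rw [S1_S1, S1_S1] at this
  linarith

lemma SymR.RT {P : (I × Fin 3 → ℝ) → ℝ} (h : SymR P) (ε : ℝ) (i : I) : SymR (RT ε i P) := by
  intro π x
  simp only [Pave.RT]
  rw [h π x, h.S1 i π x]

/-- colour-symmetric point -/
def CS (x : I × Fin 3 → ℝ) : Prop := ∀ i c c', x (i, c) = x (i, c')

omit [DecidableEq I] in
lemma CS.pm {x : I × Fin 3 → ℝ} (h : CS x) (π : Equiv.Perm (Fin 3)) : pm π x = x := by
  funext e; exact h _ _ _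

lemma CS.ln {x : I × Fin 3 → ℝ} (h : CS x) (i : I) (u : ℝ) : CS (ln x i u) := by
  intro j c c'
  simp only [Pave.ln]
  rw [h j c c']

lemma SymR.D_eq {P : (I × Fin 3 → ℝ) → ℝ} (h : SymR P) {x : I × Fin 3 → ℝ} (hx : CS x) (j : I)
    (c c' : Fin 3) : D (j, c) P x = D (j, c') P x := by
  have := D_pm (Equiv.swap c c') (h (Equiv.swap c c')) j c x
  rwa [hx.pm, Equiv.swap_apply_left] at this

lemma SymR.DD_eq {P : (I × Fin 3 → ℝ) → ℝ} (h : SymR P) {x : I × Fin 3 → ℝ} (hx : CS x) (j k : I)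
    (π : Equiv.Perm (Fin 3)) (c c' : Fin 3) :
    D (j, c) (D (k, c') P) x = D (j, π c) (D (k, π c') P) x := by
  have := D_pm π (D_pm π (h π) k c') j c x
  rwa [hx.pm] at this

lemma SymR.S1_eq {P : (I × Fin 3 → ℝ) → ℝ} (h : SymR P) {x : I × Fin 3 → ℝ} (hx : CS x) (j : I) :
    Pave.S1 j P x = 3 * D (j, 0) P x := by
  simp only [Pave.S1]
  rw [h.D_eq hx j 1 0, h.D_eq hx j 2 0]; ring

lemma SymR.S2_eq {P : (I × Fin 3 → ℝ) → ℝ} (h : SymR P) {x : I × Fin 3 → ℝ} (hx : CS x) (j : I) :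
    Pave.S2 j P x = 3 * D (j, 0) (D (j, 1) P) x := by
  simp only [Pave.S2]
  have e1 : D (j, 0) (D (j, 2) P) x = D (j, 0) (D (j, 1) P) x := by
    have := h.DD_eq hx j j (Equiv.swap 1 2) 0 2
    simpa [Equiv.swap_apply_of_ne_of_ne] using this
  have e2 : D (j, 1) (D (j, 2) P) x = D (j, 0) (D (j, 2) P) x := by
    have := h.DD_eq hx j j (Equiv.swap 0 1) 1 2
    simpa [Equiv.swap_apply_of_ne_of_ne] using this
  rw [e2, e1]; ring

end Pool.Agent.W702.Pave
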