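import Pool.Agent.W702.Pave.Cubic
import Pool.Agent.W702.Pave.Line

/-!
The step lemma for real multi-affine functions.
-/

namespace Pool.Agent.W702.Pave

open Pool.Agent.W676.KS

variable {I : Type*} [DecidableEq I]

/-- the invariant at the vertex `j` -/
def Inv (t : ℝ) (P : (I × Fin 3 → ℝ) → ℝ) (z : I × Fin 3 → ℝ) (j : I) : Prop :=
  t * D (j, 0) P z ≤ P z ∧ t ^ 2 * ((D (j, 0) P z) ^ 2 - P z * D (j, 0) (D (j, 1) P) z) ≤
    (61 / 20 * P z - 3 * (t * D (j, 0) P z)) ^ 2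

lemma RT2_eq (ε : ℝ) (i : I) (K : (I × Fin 3 → ℝ) → ℝ) (x : I × Fin 3 → ℝ) :
    RT ε i (RT ε i K) x = K x + 2 * ε * S1 i K x + 2 * ε ^ 2 * S2 i K x := by
  have h : S1 i (RT ε i K) x = S1 i K x + ε * S1 i (S1 i K) x := by
    show D (i, 0) (fun x => K x + ε * S1 i K x) x + D (i, 1) (fun x => K x + ε * S1 i K x) x
      + D (i, 2) (fun x => K x + ε * S1 i K x) x = D (i, 0) K x + D (i, 1) K x + D (i, 2) K x
      + ε * (D (i, 0) (S1 i K) x + D (i, 1) (S1 i K) x + D (i, 2) (S1 i K) x)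
    rw [D_add, D_add, D_add, D_smul, D_smul, D_smul]; ring
  show (K x + ε * S1 i K x) + ε * S1 i (RT ε i K) x = _
  rw [h, S1_S1]; ring

lemma S1_RT2 (ε : ℝ) (i : I) (K : (I × Fin 3 → ℝ) → ℝ) (x : I × Fin 3 → ℝ) :
    S1 i (RT ε i (RT ε i K)) x = S1 i K x + 4 * ε * S2 i K x + 6 * ε ^ 2 * S3 i K x := by
  have e : RT ε i (RT ε i K) = fun x => (K x + 2 * ε * S1 i K x) + 2 * ε ^ 2 * S2 i K x := by
    funext x; exact RT2_eq ε i K x
  have a := S1_S1 i K x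
  have b := S1_S2 i K x
  have h : S1 i (RT ε i (RT ε i K)) x = S1 i K x + 2 * ε * S1 i (S1 i K) x
      + 2 * ε ^ 2 * S1 i (S2 i K) x := by
    rw [e]
    show D (i, 0) (fun x => (K x + 2 * ε * S1 i K x) + 2 * ε ^ 2 * S2 i K x) x
      + D (i, 1) (fun x => (K x + 2 * ε * S1 i K x) + 2 * ε ^ 2 * S2 i K x) x
      + D (i, 2) (fun x => (K x + 2 * ε * S1 i K x) + 2 * ε ^ 2 * S2 i K x) x =
      D (i, 0) K x + D (i, 1) K x + D (i, 2) K x
      + 2 * ε * (D (i, 0) (S1 i K) x + D (i, 1) (S1 i K) x + D (i, 2) (S1 i K) x)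
      + 2 * ε ^ 2 * (D (i, 0) (S2 i K) x + D (i, 1) (S2 i K) x + D (i, 2) (S2 i K) x)
    simp only [D_add, D_smul]; ring
  rw [h, a, b]; ring

lemma D_RT (k : I × Fin 3) (ε : ℝ) (i : I) (K : (I × Fin 3 → ℝ) → ℝ) :
    D k (RT ε i K) = RT ε i (D k K) := by
  funext x
  show D k (fun x => K x + ε * S1 i K x) x = D k K x + ε * S1 i (D k K) x
  rw [D_add, D_smul, D_S1']

/-- expansion of the perturbed function along the line -/
lemma expand0 {K : (I × Fin 3 → ℝ) → ℝ} (hA : Aff K) (z : I × Fin 3 → ℝ) (i : I) (ε t s : ℝ) :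
    RT (ε * t) i (RT (ε * t) i K) (ln z i (t * s)) =
      c0 ε (K z) (t * S1 i K z) (t ^ 2 * S2 i K z)
      + c1 ε (t * S1 i K z) (t ^ 2 * S2 i K z) (t ^ 3 * S3 i K z) * s
      + c2 ε (t ^ 2 * S2 i K z) (t ^ 3 * S3 i K z) * s ^ 2 + t ^ 3 * S3 i K z * s ^ 3 := by
  rw [RT2_eq, line0 hA, line1 hA, line2 hA]
  unfold c0 c1 c2; ring

lemma S3_line {K : (I × Fin 3 → ℝ) → ℝ} (hA : Aff K) (z : I × Fin 3 → ℝ) (i : I) (u : ℝ) :
    S3 i K (ln z i u) = S3 i K z := by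
  have a := line2 hA z i 0
  have b := line2 hA z i u
  have c := line2 hA (ln z i u) i 1
  have d := line2 hA z i (u + 1)
  have e : ln (ln z i u) i 1 = ln z i (u + 1) := by
    funext k
    simp only [ln]
    split_ifs
    · ring
    · rfl
  rw [e, d, b] at c
  linarith

/-- expansion of the derivative of the perturbed function along the line -/
lemma expand1 {K : (I × Fin 3 → ℝ) → ℝ} (hA : Aff K) (z : I × Fin 3 → ℝ) (i : I) (ε t s : ℝ) :
    t * S1 i (RT (ε * t) i (RT (ε * t) i K)) (ln z i (t * s)) =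
      c1 ε (t * S1 i K z) (t ^ 2 * S2 i K z) (t ^ 3 * S3 i K z)
      + 2 * c2 ε (t ^ 2 * S2 i K z) (t ^ 3 * S3 i K z) * s + 3 * (t ^ 3 * S3 i K z) * s ^ 2 := by
  rw [S1_RT2, line1 hA, line2 hA, S3_line hA]
  unfold c1 c2; ring

lemma hRR_of {P : (I × Fin 3 → ℝ) → ℝ} {i : I} (hA : Aff P) (hR : Ray P) (hS : SymR P)
    {z : I × Fin 3 → ℝ} (hz : CS z) {t : ℝ} :
    ∀ u : ℝ, 0 ≤ 2 * (t * S1 i P z + 2 * (t ^ 2 * S2 i P z) * u
      + 3 * (t ^ 3 * S3 i P z) * u ^ 2) ^ 2 -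
      3 * (P z + t * S1 i P z * u + t ^ 2 * S2 i P z * u ^ 2 + t ^ 3 * S3 i P z * u ^ 3) *
        (2 * (t ^ 2 * S2 i P z) + 6 * (t ^ 3 * S3 i P z) * u) := by
  intro u
  have hx := hz.ln i (t * u)
  have f0 := line0 hA z i (t * u)
  have f1 := line1 hA z i (t * u)
  have f2 := line2 hA z i (t * u)
  rw [hS.S1_eq hx] at f1
  rw [hS.S2_eq hx] at f2
  have r := hR (i, 0) (i, 1) (by simp) (ln z i (t * u))
  rw [hS.D_eq hx i 1 0] at r
  have g0 : P z + t * S1 i P z * u + t ^ 2 * S2 i P z * u ^ 2 + t ^ 3 * S3 i P z * u ^ 3 =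
      P (ln z i (t * u)) := by rw [f0]; ring
  have g1 : t * S1 i P z + 2 * (t ^ 2 * S2 i P z) * u
    + 3 * (t ^ 3 * S3 i P z) * u ^ 2 = t * (3 * D (i, 0) P (ln z i (t * u))) := by
    rw [f1]; ring
  have g2 : 2 * (t ^ 2 * S2 i P z) + 6 * (t ^ 3 * S3 i P z) * u =
      2 * t ^ 2 * (3 * D (i, 0) (D (i, 1) P) (ln z i (t * u))) := by
    rw [f2]; ring
  rw [g0, g1, g2]
  have := mul_nonneg (sq_nonneg t) (sub_nonneg.2 r)
  nlinarith

/-- positivity at the new point -/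
lemma step_pos {P : (I × Fin 3 → ℝ) → ℝ} {i : I} (hA : Aff P) (hR : Ray P) (hS : SymR P)
    {z : I × Fin 3 → ℝ} (hz : CS z) {t : ℝ} (ht : 0 < t) (h0 : 0 < P z)
    (h1 : 0 < D (i, 0) P z) (h2 : 0 < D (i, 0) (D (i, 1) P) z) (h3 : 0 < S3 i P z)
    (hi : Inv t P z i) : 0 < S2 i P (ln z i (-(501 / 1000 * t))) := by
  have e1 : S1 i P z = 3 * D (i, 0) P z := hS.S1_eq hz i
  have e2 : S2 i P z = 3 * D (i, 0) (D (i, 1) P) z := hS.S2_eq hz i
  have k := p2_ge h0 (by rw [e1]; positivity) (by rw [e2]; positivity) (by positivity)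
    (hRR_of hA hR hS hz (i := i) (t := t)) (by rw [e1]; have := hi.1; linarith)
  have s0 : t ^ 2 * S2 i P (ln z i (-(501 / 1000 * t))) =
      t ^ 2 * S2 i P z - 1503 / 1000 * (t ^ 3 * S3 i P z) := by
    rw [line2 hA]; ring
  have h4 : 0 < t ^ 3 * S3 i P z := by positivity
  have h5 : 0 < t ^ 2 * S2 i P (ln z i (-(501 / 1000 * t))) := by rw [s0]; linarith
  exact (pos_iff_pos_of_mul_pos h5).1 (by positivity)

/-- **The step lemma.** -/
theorem step (hsos : S_sos) (hcub : S_cub) {P : (I × Fin 3 → ℝ) → ℝ} {i j : I} (hij : i ≠ j)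
    (hA : Aff P) (hR : Ray P) (hRE : ∀ ε, 0 < ε → Ray (RT ε i (RT ε i P))) (hS : SymR P)
    {z : I × Fin 3 → ℝ} (hz : CS z) {t : ℝ} (ht : 0 < t) (h0 : 0 < P z)
    (h1 : 0 < D (i, 0) P z) (h2 : 0 < D (i, 0) (D (i, 1) P) z) (h3 : 0 < S3 i P z)
    (h4 : 0 ≤ S3 i (D (j, 0) P) z) (hi : Inv t P z i) (hj : Inv t P z j) :
    0 < S2 i P (ln z i (-(501 / 1000 * t))) ∧
      Inv t (S2 i P) (ln z i (-(501 / 1000 * t))) j := by
  set Q := D (j, 0) P with hQ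
  set R := D (j, 0) (D (j, 1) P) with hR'
  have hAQ : Aff Q := hA.dd _
  have hAR : Aff R := (hA.dd _).dd _
  have e1 : S1 i P z = 3 * D (i, 0) P z := hS.S1_eq hz i
  have e2 : S2 i P z = 3 * D (i, 0) (D (i, 1) P) z := hS.S2_eq hz i
  have hRR := hRR_of hA hR hS hz (i := i) (t := t)
  -- the perturbed inequalities
  have hF1 : ∀ ε u : ℝ, 0 < ε →
      0 ≤ (c0 ε (t * Q z) (t * (t * S1 i Q z)) (t * (t ^ 2 * S2 i Q z))
        + c1 ε (t * (t * S1 i Q z)) (t * (t ^ 2 * S2 i Q z)) (t * (t ^ 3 * S3 i Q z)) * u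
        + c2 ε (t * (t ^ 2 * S2 i Q z)) (t * (t ^ 3 * S3 i Q z)) * u ^ 2
        + t * (t ^ 3 * S3 i Q z) * u ^ 3) ^ 2
      - (c0 ε (P z) (t * S1 i P z) (t ^ 2 * S2 i P z)
        + c1 ε (t * S1 i P z) (t ^ 2 * S2 i P z) (t ^ 3 * S3 i P z) * u
        + c2 ε (t ^ 2 * S2 i P z) (t ^ 3 * S3 i P z) * u ^ 2 + t ^ 3 * S3 i P z * u ^ 3) *
        (c0 ε (t ^ 2 * R z) (t ^ 2 * (t * S1 i R z)) (t ^ 2 * (t ^ 2 * S2 i R z))
        + c1 ε (t ^ 2 * (t * S1 i R z)) (t ^ 2 * (t ^ 2 * S2 i R z))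
            (t ^ 2 * (t ^ 3 * S3 i R z)) * u
        + c2 ε (t ^ 2 * (t ^ 2 * S2 i R z)) (t ^ 2 * (t ^ 3 * S3 i R z)) * u ^ 2
        + t ^ 2 * (t ^ 3 * S3 i R z) * u ^ 3) := by
    intro ε u hε
    have hεt : 0 < ε * t := mul_pos hε ht
    set G := RT (ε * t) i (RT (ε * t) i P) with hG
    have hx := hz.ln i (t * u)
    have hSG : SymR G := (hS.RT _ i).RT _ i
    have r := hRE (ε * t) hεt (j, 0) (j, 1) (by simp) (ln z i (t * u))
    rw [← hG] at r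
    rw [hSG.D_eq hx j 1 0] at r
    have k1 : D (j, 0) G = RT (ε * t) i (RT (ε * t) i Q) := by
      rw [hG, D_RT, D_RT]
    have k2 : D (j, 0) (D (j, 1) G) = RT (ε * t) i (RT (ε * t) i R) := by
      rw [hG, D_RT, D_RT, D_RT, D_RT]
    rw [k1, k2, hG, expand0 hA, expand0 hAQ, expand0 hAR] at r
    have := mul_nonneg (sq_nonneg t) (sub_nonneg.2 r)
    refine this.trans (le_of_eq ?_)
    unfold c0 c1 c2; ring
  have hF2 : ∀ ε u : ℝ, 0 < ε → 0 ≤ (c1 ε (t * S1 i P z) (t ^ 2 * S2 i P z) (t ^ 3 * S3 i P z)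
        + 2 * c2 ε (t ^ 2 * S2 i P z) (t ^ 3 * S3 i P z) * u + 3 * (t ^ 3 * S3 i P z) * u ^ 2) *
        (c0 ε (t * Q z) (t * (t * S1 i Q z)) (t * (t ^ 2 * S2 i Q z))
        + c1 ε (t * (t * S1 i Q z)) (t * (t ^ 2 * S2 i Q z)) (t * (t ^ 3 * S3 i Q z)) * u
        + c2 ε (t * (t ^ 2 * S2 i Q z)) (t * (t ^ 3 * S3 i Q z)) * u ^ 2
        + t * (t ^ 3 * S3 i Q z) * u ^ 3)
      - (c0 ε (P z) (t * S1 i P z) (t ^ 2 * S2 i P z)
        + c1 ε (t * S1 i P z) (t ^ 2 * S2 i P z) (t ^ 3 * S3 i P z) * u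
        + c2 ε (t ^ 2 * S2 i P z) (t ^ 3 * S3 i P z) * u ^ 2 + t ^ 3 * S3 i P z * u ^ 3) *
        (c1 ε (t * (t * S1 i Q z)) (t * (t ^ 2 * S2 i Q z)) (t * (t ^ 3 * S3 i Q z))
        + 2 * c2 ε (t * (t ^ 2 * S2 i Q z)) (t * (t ^ 3 * S3 i Q z)) * u
        + 3 * (t * (t ^ 3 * S3 i Q z)) * u ^ 2) := by
    intro ε u hε
    have hεt : 0 < ε * t := mul_pos hε ht
    set G := RT (ε * t) i (RT (ε * t) i P) with hG
    have hne : ∀ c : Fin 3, ((i, c) : I × Fin 3) ≠ (j, 0) := by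
      intro c h; exact hij (congrArg Prod.fst h)
    have r0 := hRE (ε * t) hεt (i, 0) (j, 0) (hne 0) (ln z i (t * u))
    have r1 := hRE (ε * t) hεt (i, 1) (j, 0) (hne 1) (ln z i (t * u))
    have r2 := hRE (ε * t) hεt (i, 2) (j, 0) (hne 2) (ln z i (t * u))
    rw [← hG] at r0 r1 r2
    have k1 : D (j, 0) G = RT (ε * t) i (RT (ε * t) i Q) := by
      rw [hG, D_RT, D_RT]
    have r : G (ln z i (t * u)) * (t * S1 i (D (j, 0) G) (ln z i (t * u))) ≤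
        (t * S1 i G (ln z i (t * u))) * D (j, 0) G (ln z i (t * u)) := by
      have : G (ln z i (t * u)) * S1 i (D (j, 0) G) (ln z i (t * u)) ≤
        S1 i G (ln z i (t * u)) * D (j, 0) G (ln z i (t * u)) := by
        simp only [S1]; linarith
      have := mul_le_mul_of_nonneg_left this ht.le
      linarith
    rw [k1, hG, expand0 hA, expand0 hAQ, expand1 hA, expand1 hAQ] at r
    have := mul_nonneg ht.le (sub_nonneg.2 r)
    refine this.trans (le_of_eq ?_)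
    unfold c0 c1 c2; ring
  have key := cubic_step hsos hcub (p0 := P z) (p1 := t * S1 i P z) (p2 := t ^ 2 * S2 i P z)
    (p3 := t ^ 3 * S3 i P z) (a0 := t * Q z) (a1 := t * (t * S1 i Q z))
    (a2 := t * (t ^ 2 * S2 i Q z)) (a3 := t * (t ^ 3 * S3 i Q z)) (b0 := t ^ 2 * R z)
    (b1 := t ^ 2 * (t * S1 i R z)) (b2 := t ^ 2 * (t ^ 2 * S2 i R z))
    (b3 := t ^ 2 * (t ^ 3 * S3 i R z)) h0 (by rw [e1]; positivity) (by rw [e2]; positivity)
    (by positivity) (by positivity) hRR hF1 hF2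
    (by rw [e1]; have := hi.1; linarith)
    (by
      have := hi.2
      rw [e1, e2]
      refine le_trans (le_of_eq ?_) (this.trans (le_of_eq ?_))
      · ring
      · ring)
    hj.1
    (by
      have := hj.2
      refine le_trans (le_of_eq ?_) (this.trans (le_of_eq ?_))
      · ring
      · ring)
  obtain ⟨k1, k2, k3⟩ := key
  have s0 : t ^ 2 * S2 i P (ln z i (-(501 / 1000 * t))) =
      t ^ 2 * S2 i P z - 1503 / 1000 * (t ^ 3 * S3 i P z) := by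
    rw [line2 hA]; ring
  have s1 : t ^ 2 * S2 i Q (ln z i (-(501 / 1000 * t))) =
      t ^ 2 * S2 i Q z - 1503 / 1000 * (t ^ 3 * S3 i Q z) := by
    rw [line2 hAQ]; ring
  have s2 : t ^ 2 * S2 i R (ln z i (-(501 / 1000 * t))) =
      t ^ 2 * S2 i R z - 1503 / 1000 * (t ^ 3 * S3 i R z) := by
    rw [line2 hAR]; ring
  have ht2 : 0 < t ^ 2 := by positivity
  have d1 : D (j, 0) (S2 i P) = S2 i Q := by rw [D_S2']
  have d2 : D (j, 0) (D (j, 1) (S2 i P)) = S2 i R := by rw [D_S2', D_S2']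
  refine ⟨?_, ?_, ?_⟩
  · rw [← s0] at k1
    exact (pos_iff_pos_of_mul_pos k1).1 ht2
  · rw [d1]
    rw [← s0] at k2
    have : t ^ 2 * (t * S2 i Q (ln z i (-(501 / 1000 * t)))) ≤
        t ^ 2 * S2 i P (ln z i (-(501 / 1000 * t))) := by
      refine le_trans (le_of_eq ?_) k2
      have := congrArg (fun x => t * x) s1
      linarith
    exact le_of_mul_le_mul_left this ht2
  · rw [d1, d2]
    have k3' : (t ^ 2) ^ 2 * (t ^ 2 * (S2 i Q (ln z i (-(501 / 1000 * t))) ^ 2 -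
        S2 i P (ln z i (-(501 / 1000 * t))) * S2 i R (ln z i (-(501 / 1000 * t))))) ≤
        (t ^ 2) ^ 2 * (61 / 20 * S2 i P (ln z i (-(501 / 1000 * t))) -
          3 * (t * S2 i Q (ln z i (-(501 / 1000 * t))))) ^ 2 := by
      have g1 : t * (t ^ 2 * S2 i Q z) - 1503 / 1000 * (t * (t ^ 3 * S3 i Q z)) =
          t * (t ^ 2 * S2 i Q (ln z i (-(501 / 1000 * t)))) := by rw [s1]; ring
      have g2 : t ^ 2 * (t ^ 2 * S2 i R z) - 1503 / 1000 * (t ^ 2 * (t ^ 3 * S3 i R z)) =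
          t ^ 2 * (t ^ 2 * S2 i R (ln z i (-(501 / 1000 * t)))) := by rw [s2]; ring
      rw [g1, g2, ← s0] at k3
      refine le_trans (le_of_eq ?_) (k3.trans (le_of_eq ?_))
      · ring
      · ring
    exact le_of_mul_le_mul_left k3' (by positivity)

end Pool.Agent.W702.Pave
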